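import Mathlib

set_option autoImplicit false

namespace Pool.Agent.MP_65f012_co

/-- The numerical data attached to three sets of a linked system, in the case in which `v` is
coprime to the three block sizes. -/
structure Core (v m s1 s2 s3 x1 x2 x3 y1 y2 y3 : ℕ) : Prop where
  hv : v = m + 1
  hm : 2 ≤ m
  hs1 : 0 < s1
  hs2 : 0 < s2
  hs3 : 0 < s3
  h1 : x1 + y1 = v
  h2 : x2 + y2 = v
  h3 : x3 + y3 = v
  p1 : x1 * y1 = s2 * s3 * m
  p2 : x2 * y2 = s1 * s3 * m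
  p3 : x3 * y3 = s1 * s2 * m
  c1 : Nat.Coprime v x1
  c2 : Nat.Coprime v x2
  c3 : Nat.Coprime v x3
  q1 : v ≤ x1 ^ 2
  q2 : v ≤ x2 ^ 2
  q3 : v ≤ x3 ^ 2
  r1 : v ≤ y1 ^ 2
  r2 : v ≤ y2 ^ 2
  r3 : v ≤ y3 ^ 2
  cong : (v : ℤ) ∣ (x1 * x2 * x3 : ℕ) - (s1 * s2 * s3 * m : ℕ) ∨
    (v : ℤ) ∣ (x1 * x2 * x3 : ℕ) + (s1 * s2 * s3 * m : ℕ)

namespace Core

variable {v m s1 s2 s3 x1 x2 x3 y1 y2 y3 : ℕ}

lemma perm12 (h : Core v m s1 s2 s3 x1 x2 x3 y1 y2 y3) :
    Core v m s2 s1 s3 x2 x1 x3 y2 y1 y3 where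
  hv := h.hv
  hm := h.hm
  hs1 := h.hs2
  hs2 := h.hs1
  hs3 := h.hs3
  h1 := h.h2
  h2 := h.h1
  h3 := h.h3
  p1 := h.p2
  p2 := h.p1
  p3 := by rw [h.p3]; ring
  c1 := h.c2
  c2 := h.c1
  c3 := h.c3
  q1 := h.q2
  q2 := h.q1
  q3 := h.q3
  r1 := h.r2
  r2 := h.r1
  r3 := h.r3
  cong := by
    have e1 : x2 * x1 * x3 = x1 * x2 * x3 := by ring
    have e2 : s2 * s1 * s3 * m = s1 * s2 * s3 * m := by ring
    rw [e1, e2]; exact h.cong

lemma perm13 (h : Core v m s1 s2 s3 x1 x2 x3 y1 y2 y3) :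
    Core v m s3 s2 s1 x3 x2 x1 y3 y2 y1 where
  hv := h.hv
  hm := h.hm
  hs1 := h.hs3
  hs2 := h.hs2
  hs3 := h.hs1
  h1 := h.h3
  h2 := h.h2
  h3 := h.h1
  p1 := by rw [h.p3]; ring
  p2 := by rw [h.p2]; ring
  p3 := by rw [h.p1]; ring
  c1 := h.c3
  c2 := h.c2
  c3 := h.c1
  q1 := h.q3
  q2 := h.q2
  q3 := h.q1
  r1 := h.r3
  r2 := h.r2
  r3 := h.r1
  cong := by
    have e1 : x3 * x2 * x1 = x1 * x2 * x3 := by ring
    have e2 : s3 * s2 * s1 * m = s1 * s2 * s3 * m := by ring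
    rw [e1, e2]; exact h.cong

lemma cop_aux {v x y : ℕ} (h : x + y = v) (c : Nat.Coprime v x) : Nat.Coprime v y := by
  apply Nat.Coprime.symm
  apply Nat.coprime_of_dvd
  intro p hp hpy hpv
  have hx : p ∣ x := (Nat.dvd_add_left hpy).1 (h ▸ hpv)
  exact hp.one_lt.ne' (Nat.dvd_one.1 (c ▸ Nat.dvd_gcd hpv hx))

lemma swap1 (h : Core v m s1 s2 s3 x1 x2 x3 y1 y2 y3) :
    Core v m s1 s2 s3 y1 x2 x3 x1 y2 y3 where
  hv := h.hv
  hm := h.hm
  hs1 := h.hs1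
  hs2 := h.hs2
  hs3 := h.hs3
  h1 := by rw [add_comm]; exact h.h1
  h2 := h.h2
  h3 := h.h3
  p1 := by rw [mul_comm]; exact h.p1
  p2 := h.p2
  p3 := h.p3
  c1 := cop_aux h.h1 h.c1
  c2 := h.c2
  c3 := h.c3
  q1 := h.r1
  q2 := h.q2
  q3 := h.q3
  r1 := h.q1
  r2 := h.r2
  r3 := h.r3
  cong := by
    have e1 : ((y1 * x2 * x3 : ℕ) : ℤ) = v * (x2 * x3) - ((x1 * x2 * x3 : ℕ) : ℤ) := by
      have := h.h1
      have h' : (v : ℤ) = x1 + y1 := by exact_mod_cast this.symm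
      push_cast
      rw [h']; ring
    rw [e1]
    rcases h.cong with hc | hc
    · right
      obtain ⟨t, ht⟩ := hc
      exact ⟨(x2 * x3 : ℤ) - t, by linear_combination -ht⟩
    · left
      obtain ⟨t, ht⟩ := hc
      exact ⟨(x2 * x3 : ℤ) - t, by linear_combination -ht⟩

lemma swap2 (h : Core v m s1 s2 s3 x1 x2 x3 y1 y2 y3) :
    Core v m s1 s2 s3 x1 y2 x3 y1 x2 y3 := h.perm12.swap1.perm12

lemma swap3 (h : Core v m s1 s2 s3 x1 x2 x3 y1 y2 y3) :
    Core v m s1 s2 s3 x1 x2 y3 y1 y2 x3 := h.perm13.swap1.perm13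

lemma posx1 (h : Core v m s1 s2 s3 x1 x2 x3 y1 y2 y3) : 0 < x1 := by
  have := h.q1; have := h.hv
  rcases Nat.eq_zero_or_pos x1 with h0 | h0
  · subst h0; simp at *; omega
  · exact h0

lemma wcop (h : Core v m s1 s2 s3 x1 x2 x3 y1 y2 y3) : Nat.Coprime (s1 * s2 * s3 * m) v := by
  have a1 : Nat.Coprime (x1 * y1) v :=
    Nat.Coprime.mul_left h.c1.symm (cop_aux h.h1 h.c1).symm
  have a2 : Nat.Coprime (x2 * y2) v :=
    Nat.Coprime.mul_left h.c2.symm (cop_aux h.h2 h.c2).symm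
  rw [h.p1] at a1
  rw [h.p2] at a2
  have b1 : Nat.Coprime m v := Nat.Coprime.coprime_mul_left a1
  have b2 : Nat.Coprime (s2 * s3) v := Nat.Coprime.coprime_mul_right a1
  have b3 : Nat.Coprime (s1 * s3) v := Nat.Coprime.coprime_mul_right a2
  have b4 : Nat.Coprime s1 v := Nat.Coprime.coprime_mul_right b3
  have : s1 * s2 * s3 * m = s1 * (s2 * s3) * m := by ring
  rw [this]
  exact Nat.Coprime.mul_left (Nat.Coprime.mul_left b4 b2) b1

lemma keyA {v P w : ℕ} (hcop : Nat.Coprime w v) (hw : 0 < w)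
    (h : (v : ℤ) ∣ (P : ℤ) - w ∨ (v : ℤ) ∣ (P : ℤ) + w) (hne : P ≠ w) :
    v * Nat.gcd P w ≤ P + w := by
  have hg1 : ((Nat.gcd P w : ℕ) : ℤ) ∣ (P : ℤ) := by exact_mod_cast Nat.gcd_dvd_left P w
  have hg2 : ((Nat.gcd P w : ℕ) : ℤ) ∣ (w : ℤ) := by exact_mod_cast Nat.gcd_dvd_right P w
  have hc : Nat.Coprime v (Nat.gcd P w) :=
    (Nat.Coprime.coprime_dvd_left (Nat.gcd_dvd_right P w) hcop).symm
  have hc' : IsCoprime (v : ℤ) ((Nat.gcd P w : ℕ) : ℤ) := Nat.isCoprime_iff_coprime.2 hc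
  have key : ∀ z : ℤ, (v : ℤ) ∣ z → ((Nat.gcd P w : ℕ) : ℤ) ∣ z → z ≠ 0 → |z| ≤ (P : ℤ) + w →
      v * Nat.gcd P w ≤ P + w := by
    intro z h1 h2 h3 h4
    have h5 : (v : ℤ) * ((Nat.gcd P w : ℕ) : ℤ) ∣ z := hc'.mul_dvd h1 h2
    have h6 := Int.le_of_dvd (abs_pos.2 h3) ((dvd_abs _ _).2 h5)
    have h7 := h6.trans h4
    exact_mod_cast h7
  rcases h with h | h
  · apply key _ h (dvd_sub hg1 hg2)
    · intro h0
      apply hne
      have : (P : ℤ) = w := by linarith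
      exact_mod_cast this
    · rw [abs_le]; constructor <;> omega
  · apply key _ h (dvd_add hg1 hg2)
    · have : (0 : ℤ) < w := by exact_mod_cast hw
      have h2 : (0 : ℤ) ≤ P := by positivity
      omega
    · rw [abs_le]; constructor <;> omega

lemma keyA1 (h : Core v m s1 s2 s3 x1 x2 x3 y1 y2 y3)
    (hne : x1 * x2 * x3 ≠ s1 * s2 * s3 * m) :
    v * Nat.gcd (x1 * x2 * x3) (s1 * s2 * s3 * m) ≤ x1 * x2 * x3 + s1 * s2 * s3 * m := by
  have hw : 0 < s1 * s2 * s3 * m := by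
    have := h.hs1; have := h.hs2; have := h.hs3; have := h.hm
    have : 0 < m := by omega
    positivity
  exact keyA h.wcop hw h.cong hne

/-- Valuations: `w⁶ m` divides the product of the eight greatest common divisors. -/
lemma keyB (h : Core v m s1 s2 s3 x1 x2 x3 y1 y2 y3) :
    (s1 * s2 * s3 * m) ^ 6 * m ∣
      Nat.gcd (x1 * x2 * x3) (s1 * s2 * s3 * m) * Nat.gcd (y1 * x2 * x3) (s1 * s2 * s3 * m) *
      Nat.gcd (x1 * y2 * x3) (s1 * s2 * s3 * m) * Nat.gcd (x1 * x2 * y3) (s1 * s2 * s3 * m) *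
      Nat.gcd (x1 * y2 * y3) (s1 * s2 * s3 * m) * Nat.gcd (y1 * x2 * y3) (s1 * s2 * s3 * m) *
      Nat.gcd (y1 * y2 * x3) (s1 * s2 * s3 * m) * Nat.gcd (y1 * y2 * y3) (s1 * s2 * s3 * m) := by
  have n1 : s1 ≠ 0 := h.hs1.ne'
  have n2 : s2 ≠ 0 := h.hs2.ne'
  have n3 : s3 ≠ 0 := h.hs3.ne'
  have nm : m ≠ 0 := by have := h.hm; omega
  have m1 : x1 ≠ 0 := h.posx1.ne'
  have m2 : x2 ≠ 0 := h.perm12.posx1.ne'
  have m3 : x3 ≠ 0 := h.perm13.posx1.ne'
  have l1 : y1 ≠ 0 := h.swap1.posx1.ne'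
  have l2 : y2 ≠ 0 := h.swap2.perm12.posx1.ne'
  have l3 : y3 ≠ 0 := h.swap3.perm13.posx1.ne'
  have hwn : s1 * s2 * s3 * m ≠ 0 := by positivity
  have hgn : ∀ P, Nat.gcd P (s1 * s2 * s3 * m) ≠ 0 := fun P hP =>
    hwn (Nat.gcd_eq_zero_iff.1 hP).2
  rw [← Nat.factorization_prime_le_iff_dvd (by positivity)
    (by simp only [ne_eq, mul_eq_zero, hgn, or_self, not_false_eq_true])]
  intro p hp
  have fm : ∀ a b : ℕ, a ≠ 0 → b ≠ 0 →
      (a * b).factorization p = a.factorization p + b.factorization p := by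
    intro a b ha hb
    rw [Nat.factorization_mul ha hb]; rfl
  have fg : ∀ P : ℕ, P ≠ 0 → (Nat.gcd P (s1 * s2 * s3 * m)).factorization p =
      min (P.factorization p) ((s1 * s2 * s3 * m).factorization p) := by
    intro P hP
    rw [Nat.factorization_gcd hP hwn]; rfl
  have zer : ∀ a b : ℕ, a + b = v → Nat.Coprime v a →
      a.factorization p = 0 ∨ b.factorization p = 0 := by
    intro a b hab hc
    by_contra hcon
    push Not at hcon
    have pa : p ∣ a := Nat.dvd_of_factorization_pos hcon.1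
    have pb : p ∣ b := Nat.dvd_of_factorization_pos hcon.2
    have pv : p ∣ v := hab ▸ (dvd_add pa pb)
    exact hp.one_lt.ne' (Nat.dvd_one.1 (hc ▸ Nat.dvd_gcd pv pa))
  have z1 := zer x1 y1 h.h1 h.c1
  have z2 := zer x2 y2 h.h2 h.c2
  have z3 := zer x3 y3 h.h3 h.c3
  have e1 := congrArg (fun t => t.factorization p) h.p1
  have e2 := congrArg (fun t => t.factorization p) h.p2
  have e3 := congrArg (fun t => t.factorization p) h.p3
  beta_reduce at e1 e2 e3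
  rw [fm _ _ m1 l1, fm _ _ (by positivity) nm, fm _ _ n2 n3] at e1
  rw [fm _ _ m2 l2, fm _ _ (by positivity) nm, fm _ _ n1 n3] at e2
  rw [fm _ _ m3 l3, fm _ _ (by positivity) nm, fm _ _ n1 n2] at e3
  have ew : (s1 * s2 * s3 * m).factorization p = s1.factorization p + s2.factorization p +
      s3.factorization p + m.factorization p := by
    rw [fm _ _ (by positivity) nm, fm _ _ (by positivity) n3, fm _ _ n1 n2]
  have t3 : ∀ a b c : ℕ, a ≠ 0 → b ≠ 0 → c ≠ 0 →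
      (a * b * c).factorization p = a.factorization p + b.factorization p + c.factorization p := by
    intro a b c ha hb hc
    rw [fm _ _ (by positivity) hc, fm _ _ ha hb]
  rw [fm _ _ (by positivity) nm, Nat.factorization_pow]
  rw [fm _ _ (by simp only [ne_eq, mul_eq_zero, hgn, or_self, not_false_eq_true]) (hgn _),
    fm _ _ (by simp only [ne_eq, mul_eq_zero, hgn, or_self, not_false_eq_true]) (hgn _),
    fm _ _ (by simp only [ne_eq, mul_eq_zero, hgn, or_self, not_false_eq_true]) (hgn _),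
    fm _ _ (by simp only [ne_eq, mul_eq_zero, hgn, or_self, not_false_eq_true]) (hgn _),
    fm _ _ (by simp only [ne_eq, mul_eq_zero, hgn, or_self, not_false_eq_true]) (hgn _),
    fm _ _ (by simp only [ne_eq, mul_eq_zero, hgn, or_self, not_false_eq_true]) (hgn _),
    fm _ _ (hgn _) (hgn _)]
  rw [fg _ (by positivity), fg _ (by positivity), fg _ (by positivity), fg _ (by positivity),
    fg _ (by positivity), fg _ (by positivity), fg _ (by positivity), fg _ (by positivity)]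
  rw [t3 _ _ _ m1 m2 m3, t3 _ _ _ l1 m2 m3, t3 _ _ _ m1 l2 m3, t3 _ _ _ m1 m2 l3,
    t3 _ _ _ m1 l2 l3, t3 _ _ _ l1 m2 l3, t3 _ _ _ l1 l2 m3, t3 _ _ _ l1 l2 l3]
  simp only [Finsupp.smul_apply, smul_eq_mul]
  rw [ew]
  generalize s1.factorization p = a1 at *
  generalize s2.factorization p = a2 at *
  generalize s3.factorization p = a3 at *
  generalize m.factorization p = am at *
  generalize x1.factorization p = b1 at *
  generalize x2.factorization p = b2 at *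
  generalize x3.factorization p = b3 at *
  generalize y1.factorization p = d1 at *
  generalize y2.factorization p = d2 at *
  generalize y3.factorization p = d3 at *
  rcases z1 with z1 | z1 <;> rcases z2 with z2 | z2 <;> rcases z3 with z3 | z3 <;>
    (subst z1 z2 z3; omega)

lemma mpos (h : Core v m s1 s2 s3 x1 x2 x3 y1 y2 y3) : 0 < m := by
  have := h.hm; omega

lemma wpos (h : Core v m s1 s2 s3 x1 x2 x3 y1 y2 y3) : 0 < s1 * s2 * s3 * m := by
  have := h.hs1; have := h.hs2; have := h.hs3; have := h.mpos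
  positivity

lemma prod (h : Core v m s1 s2 s3 x1 x2 x3 y1 y2 y3) :
    (x1 * y1) * (x2 * y2) * (x3 * y3) = (s1 * s2 * s3 * m) ^ 2 * m := by
  rw [h.p1, h.p2, h.p3]; ring

lemma one_lt_x1 (h : Core v m s1 s2 s3 x1 x2 x3 y1 y2 y3) : 1 < x1 := by
  have h1 := h.q1
  have h2 := h.hv
  have h3 := h.hm
  by_contra hcon
  have : x1 ≤ 1 := by omega
  interval_cases x1 <;> simp at h1 <;> omega

lemma ne_y1_x1 (h : Core v m s1 s2 s3 x1 x2 x3 y1 y2 y3) : y1 ≠ x1 := by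
  intro he
  have h1 := h.h1
  have h2 := h.one_lt_x1
  have h3 : v = 2 * x1 := by omega
  have h4 := h.c1
  rw [h3] at h4
  have h5 : Nat.gcd (2 * x1) x1 = x1 := Nat.gcd_eq_right (Dvd.intro_left 2 rfl)
  have h6 : Nat.gcd (2 * x1) x1 = 1 := h4
  omega

lemma ne_y1_mx1 (h : Core v m s1 s2 s3 x1 x2 x3 y1 y2 y3) : y1 ≠ m * x1 := by
  intro he
  have h1 := h.h1
  have h2 := h.one_lt_x1
  have h3 := h.hv
  have h4 : (m + 1) * x1 = (m + 1) * 1 := by
    calc (m + 1) * x1 = x1 + m * x1 := by ring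
      _ = v := by rw [← he]; exact h1
      _ = (m + 1) * 1 := by rw [h3, mul_one]
  have := Nat.eq_of_mul_eq_mul_left (by omega : 0 < m + 1) h4
  omega

lemma noeq (h : Core v m s1 s2 s3 x1 x2 x3 y1 y2 y3) :
    x1 * x2 * x3 ≠ s1 * s2 * s3 * m := by
  intro hX
  have hw := h.wpos
  have hmp := h.mpos
  have hm2 := h.hm
  have hv := h.hv
  have hprod := h.prod
  have px1 := h.posx1
  have px2 := h.perm12.posx1
  have px3 := h.perm13.posx1
  have py1 := h.swap1.posx1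
  have py2 := h.swap2.perm12.posx1
  have py3 := h.swap3.perm13.posx1
  -- `y1 y2 y3 = m w`
  have hY : y1 * y2 * y3 = m * (s1 * s2 * s3 * m) := by
    apply Nat.eq_of_mul_eq_mul_left hw
    calc (s1 * s2 * s3 * m) * (y1 * y2 * y3) = (x1 * x2 * x3) * (y1 * y2 * y3) := by rw [hX]
      _ = (x1 * y1) * (x2 * y2) * (x3 * y3) := by ring
      _ = _ := by rw [hprod]; ring
  -- none of the seven other products is `w`
  have a1 : y1 * x2 * x3 ≠ s1 * s2 * s3 * m := by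
    rw [← hX]
    intro he
    apply h.ne_y1_x1
    have : (x2 * x3) * y1 = (x2 * x3) * x1 := by linarith
    exact Nat.eq_of_mul_eq_mul_left (by positivity) this
  have a2 : x1 * y2 * x3 ≠ s1 * s2 * s3 * m := by
    rw [← hX]
    intro he
    apply h.perm12.ne_y1_x1
    have : (x1 * x3) * y2 = (x1 * x3) * x2 := by linarith
    exact Nat.eq_of_mul_eq_mul_left (by positivity) this
  have a3 : x1 * x2 * y3 ≠ s1 * s2 * s3 * m := by
    rw [← hX]
    intro he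
    apply h.perm13.ne_y1_x1
    have : (x1 * x2) * y3 = (x1 * x2) * x3 := by linarith
    exact Nat.eq_of_mul_eq_mul_left (by positivity) this
  have b1 : x1 * y2 * y3 ≠ s1 * s2 * s3 * m := by
    intro he
    apply h.ne_y1_mx1
    have : (y2 * y3) * y1 = (y2 * y3) * (m * x1) := by
      calc (y2 * y3) * y1 = y1 * y2 * y3 := by ring
        _ = m * (x1 * y2 * y3) := by rw [hY, he]
        _ = _ := by ring
    exact Nat.eq_of_mul_eq_mul_left (by positivity) this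
  have b2 : y1 * x2 * y3 ≠ s1 * s2 * s3 * m := by
    intro he
    apply h.perm12.ne_y1_mx1
    have : (y1 * y3) * y2 = (y1 * y3) * (m * x2) := by
      calc (y1 * y3) * y2 = y1 * y2 * y3 := by ring
        _ = m * (y1 * x2 * y3) := by rw [hY, he]
        _ = _ := by ring
    exact Nat.eq_of_mul_eq_mul_left (by positivity) this
  have b3 : y1 * y2 * x3 ≠ s1 * s2 * s3 * m := by
    intro he
    apply h.perm13.ne_y1_mx1
    have : (y1 * y2) * y3 = (y1 * y2) * (m * x3) := by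
      calc (y1 * y2) * y3 = y1 * y2 * y3 := by ring
        _ = m * (y1 * y2 * x3) := by rw [hY, he]
        _ = _ := by ring
    exact Nat.eq_of_mul_eq_mul_left (by positivity) this
  have c0 : y1 * y2 * y3 ≠ s1 * s2 * s3 * m := by
    rw [hY]
    intro he
    have : m * (s1 * s2 * s3 * m) = 1 * (s1 * s2 * s3 * m) := by linarith
    have := Nat.eq_of_mul_eq_mul_right hw this
    omega
  have k1 := h.swap1.keyA1 a1
  have k2 := h.swap2.keyA1 a2
  have k3 := h.swap3.keyA1 a3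
  have k4 := h.swap2.swap3.keyA1 b1
  have k5 := h.swap1.swap3.keyA1 b2
  have k6 := h.swap1.swap2.keyA1 b3
  have k7 := h.swap1.swap2.swap3.keyA1 c0
  have kB := h.keyB
  rw [hX, Nat.gcd_self] at kB
  have kB' := Nat.le_of_dvd (by positivity) kB
  generalize hw' : s1 * s2 * s3 * m = w at *
  generalize Nat.gcd (y1 * x2 * x3) w = g1 at *
  generalize Nat.gcd (x1 * y2 * x3) w = g2 at *
  generalize Nat.gcd (x1 * x2 * y3) w = g3 at *
  generalize Nat.gcd (x1 * y2 * y3) w = g4 at *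
  generalize Nat.gcd (y1 * x2 * y3) w = g5 at *
  generalize Nat.gcd (y1 * y2 * x3) w = g6 at *
  generalize Nat.gcd (y1 * y2 * y3) w = g7 at *
  have hG : w ^ 5 * m ≤ g1 * g2 * g3 * g4 * g5 * g6 * g7 := by
    apply Nat.le_of_mul_le_mul_left _ hw
    calc w * (w ^ 5 * m) = w ^ 6 * m := by ring
      _ ≤ _ := kB'
      _ = _ := by ring
  have hP : v ^ 7 * (g1 * g2 * g3 * g4 * g5 * g6 * g7) ≤
      (y1 * x2 * x3 + w) * (x1 * y2 * x3 + w) * (x1 * x2 * y3 + w) * (x1 * y2 * y3 + w) *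
        (y1 * x2 * y3 + w) * (y1 * y2 * x3 + w) * (y1 * y2 * y3 + w) := by
    calc v ^ 7 * (g1 * g2 * g3 * g4 * g5 * g6 * g7)
        = (v * g1) * (v * g2) * (v * g3) * (v * g4) * (v * g5) * (v * g6) * (v * g7) := by ring
      _ ≤ _ := by gcongr
  have hF : (y1 * x2 * x3 + w) * (x1 * y2 * x3 + w) * (x1 * x2 * y3 + w) * (x1 * y2 * y3 + w) *
        (y1 * x2 * y3 + w) * (y1 * y2 * x3 + w) * (y1 * y2 * y3 + w) =
        v * w ^ 4 * ((w * v + y1 * x2 * x3 + x1 * y2 * y3) * (w * v + x1 * y2 * x3 + y1 * x2 * y3) *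
          (w * v + x1 * x2 * y3 + y1 * y2 * x3)) := by
    have f1 : (y1 * x2 * x3 + w) * (x1 * y2 * y3 + w) =
        w * (w * v + y1 * x2 * x3 + x1 * y2 * y3) := by
      calc (y1 * x2 * x3 + w) * (x1 * y2 * y3 + w)
          = (x1 * y1) * (x2 * y2) * (x3 * y3) + w * (y1 * x2 * x3 + x1 * y2 * y3 + w) := by ring
        _ = _ := by rw [hprod, hv]; ring
    have f2 : (x1 * y2 * x3 + w) * (y1 * x2 * y3 + w) =
        w * (w * v + x1 * y2 * x3 + y1 * x2 * y3) := by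
      calc (x1 * y2 * x3 + w) * (y1 * x2 * y3 + w)
          = (x1 * y1) * (x2 * y2) * (x3 * y3) + w * (x1 * y2 * x3 + y1 * x2 * y3 + w) := by ring
        _ = _ := by rw [hprod, hv]; ring
    have f3 : (x1 * x2 * y3 + w) * (y1 * y2 * x3 + w) =
        w * (w * v + x1 * x2 * y3 + y1 * y2 * x3) := by
      calc (x1 * x2 * y3 + w) * (y1 * y2 * x3 + w)
          = (x1 * y1) * (x2 * y2) * (x3 * y3) + w * (x1 * x2 * y3 + y1 * y2 * x3 + w) := by ring
        _ = _ := by rw [hprod, hv]; ring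
    calc _ = ((y1 * x2 * x3 + w) * (x1 * y2 * y3 + w)) * ((x1 * y2 * x3 + w) * (y1 * x2 * y3 + w)) *
          ((x1 * x2 * y3 + w) * (y1 * y2 * x3 + w)) * (y1 * y2 * y3 + w) := by ring
      _ = _ := by rw [f1, f2, f3, hY, hv]; ring
  rw [hF] at hP
  have hF' : v ^ 6 * (w * m) ≤ (w * v + y1 * x2 * x3 + x1 * y2 * y3) *
      (w * v + x1 * y2 * x3 + y1 * x2 * y3) * (w * v + x1 * x2 * y3 + y1 * y2 * x3) := by
    have hvp : 0 < v := by omega
    apply Nat.le_of_mul_le_mul_left _ (by positivity : 0 < v * w ^ 4)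
    refine le_trans ?_ hP
    calc v * w ^ 4 * (v ^ 6 * (w * m)) = v ^ 7 * (w ^ 5 * m) := by ring
      _ ≤ _ := by gcongr
  -- the identities `x₁y₁ F₁ = w v (y₁ + m x₁)`
  have hvz : (x1 : ℤ) + y1 = v := by exact_mod_cast h.h1
  have hvz2 : (x2 : ℤ) + y2 = v := by exact_mod_cast h.h2
  have hvz3 : (x3 : ℤ) + y3 = v := by exact_mod_cast h.h3
  have hvm : (v : ℤ) = m + 1 := by exact_mod_cast hv
  have hXz : (x1 : ℤ) * x2 * x3 = w := by exact_mod_cast hX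
  have hYz : (y1 : ℤ) * y2 * y3 = m * w := by exact_mod_cast hY
  have i1 : (x1 : ℤ) * y1 * (w * v + y1 * x2 * x3 + x1 * y2 * y3) = w * v * (y1 + m * x1) := by
    have : (x1 : ℤ) * y1 * (w * v + y1 * x2 * x3 + x1 * y2 * y3) =
        x1 * y1 * w * v + y1 ^ 2 * (x1 * x2 * x3) + x1 ^ 2 * (y1 * y2 * y3) := by ring
    rw [this, hXz, hYz]
    have e : (y1 : ℤ) = v - x1 := by linarith
    have e2 : (m : ℤ) = v - 1 := by linarith
    rw [e, e2]; ring
  have i2 : (x2 : ℤ) * y2 * (w * v + x1 * y2 * x3 + y1 * x2 * y3) = w * v * (y2 + m * x2) := by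
    have : (x2 : ℤ) * y2 * (w * v + x1 * y2 * x3 + y1 * x2 * y3) =
        x2 * y2 * w * v + y2 ^ 2 * (x1 * x2 * x3) + x2 ^ 2 * (y1 * y2 * y3) := by ring
    rw [this, hXz, hYz]
    have e : (y2 : ℤ) = v - x2 := by linarith
    have e2 : (m : ℤ) = v - 1 := by linarith
    rw [e, e2]; ring
  have i3 : (x3 : ℤ) * y3 * (w * v + x1 * x2 * y3 + y1 * y2 * x3) = w * v * (y3 + m * x3) := by
    have : (x3 : ℤ) * y3 * (w * v + x1 * x2 * y3 + y1 * y2 * x3) =
        x3 * y3 * w * v + y3 ^ 2 * (x1 * x2 * x3) + x3 ^ 2 * (y1 * y2 * y3) := by ring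
    rw [this, hXz, hYz]
    have e : (y3 : ℤ) = v - x3 := by linarith
    have e2 : (m : ℤ) = v - 1 := by linarith
    rw [e, e2]; ring
  have hprodz : ((x1 : ℤ) * y1) * (x2 * y2) * (x3 * y3) = w ^ 2 * m := by exact_mod_cast hprod
  have hwz : (0 : ℤ) < w := by exact_mod_cast hw
  have hmz : (0 : ℤ) < m := by exact_mod_cast hmp
  have hvzp : (0 : ℤ) < v := by linarith
  have j : (m : ℤ) * ((w * v + y1 * x2 * x3 + x1 * y2 * y3) *
      (w * v + x1 * y2 * x3 + y1 * x2 * y3) * (w * v + x1 * x2 * y3 + y1 * y2 * x3)) =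
      w * v ^ 3 * ((y1 + m * x1) * (y2 + m * x2) * (y3 + m * x3)) := by
    apply mul_left_cancel₀ (by positivity : (w : ℤ) ^ 2 ≠ 0)
    calc (w : ℤ) ^ 2 * (m * ((w * v + y1 * x2 * x3 + x1 * y2 * y3) *
      (w * v + x1 * y2 * x3 + y1 * x2 * y3) * (w * v + x1 * x2 * y3 + y1 * y2 * x3)))
        = (w ^ 2 * m) * ((w * v + y1 * x2 * x3 + x1 * y2 * y3) *
      (w * v + x1 * y2 * x3 + y1 * x2 * y3) * (w * v + x1 * x2 * y3 + y1 * y2 * x3)) := by ring
      _ = ((x1 : ℤ) * y1 * (w * v + y1 * x2 * x3 + x1 * y2 * y3)) *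
        ((x2 : ℤ) * y2 * (w * v + x1 * y2 * x3 + y1 * x2 * y3)) *
        ((x3 : ℤ) * y3 * (w * v + x1 * x2 * y3 + y1 * y2 * x3)) := by rw [← hprodz]; ring
      _ = _ := by rw [i1, i2, i3]; ring
  have hF'' : (v : ℤ) ^ 6 * (w * m) ≤ (w * v + y1 * x2 * x3 + x1 * y2 * y3) *
      (w * v + x1 * y2 * x3 + y1 * x2 * y3) * (w * v + x1 * x2 * y3 + y1 * y2 * x3) := by
    exact_mod_cast hF'
  have hE : (v : ℤ) ^ 3 * m ^ 2 ≤ (y1 + m * x1) * (y2 + m * x2) * (y3 + m * x3) := by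
    have := mul_le_mul_of_nonneg_left hF'' hmz.le
    rw [j] at this
    apply le_of_mul_le_mul_left _ (by positivity : (0 : ℤ) < w * v ^ 3)
    calc (w : ℤ) * v ^ 3 * (v ^ 3 * m ^ 2) = m * (v ^ 6 * (w * m)) := by ring
      _ ≤ _ := this
  have hE2 : (v : ℤ) ^ 3 * m ^ 2 - (y1 + m * x1) * (y2 + m * x2) * (y3 + m * x3) =
      (m ^ 2 - m) * (w + x1 * y2 * y3 + y1 * x2 * y3 + y1 * y2 * x3) := by
    have e3 : (v : ℤ) ^ 3 = (x1 + y1) * (x2 + y2) * (x3 + y3) := by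
      rw [hvz, hvz2, hvz3]; ring
    have e4 : (v : ℤ) ^ 3 * m ^ 2 - (y1 + m * x1) * (y2 + m * x2) * (y3 + m * x3) =
        (m ^ 2 - 1) * (y1 * y2 * y3) + (m ^ 2 - m) * (x1 * y2 * y3 + y1 * x2 * y3 + y1 * y2 * x3)
        + (m ^ 2 - m ^ 3) * (x1 * x2 * x3) := by
      rw [e3]; ring
    rw [e4, hXz, hYz]; ring
  have hpos : (0 : ℤ) < (m ^ 2 - m) * (w + x1 * y2 * y3 + y1 * x2 * y3 + y1 * y2 * x3) := by
    apply mul_pos
    · have : (2 : ℤ) ≤ m := by exact_mod_cast hm2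
      nlinarith
    · positivity
  linarith

lemma amgm4 {a b c d : ℝ} (ha : 0 ≤ a) (hb : 0 ≤ b) (hc : 0 ≤ c) (hd : 0 ≤ d) :
    a * b * c * d ≤ ((a + b + c + d) / 4) ^ 4 := by
  have h1 : a * b ≤ ((a + b) / 2) ^ 2 := by nlinarith [sq_nonneg (a - b)]
  have h2 : c * d ≤ ((c + d) / 2) ^ 2 := by nlinarith [sq_nonneg (c - d)]
  have h3 : ((a + b) / 2) * ((c + d) / 2) ≤ ((a + b + c + d) / 4) ^ 2 := by
    nlinarith [sq_nonneg (a + b - c - d)]
  calc a * b * c * d = (a * b) * (c * d) := by ring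
    _ ≤ ((a + b) / 2) ^ 2 * ((c + d) / 2) ^ 2 := by gcongr
    _ = (((a + b) / 2) * ((c + d) / 2)) ^ 2 := by ring
    _ ≤ (((a + b + c + d) / 4) ^ 2) ^ 2 := by gcongr
    _ = _ := by ring

/-- The final inequality. -/
lemma final_ineq {v m w t : ℝ} (hv : v = m + 1) (hm : 1 < m) (hw : 0 < w)
    (ht : w ^ 2 * m = t) (hlow : v ^ 4 / 16 ≤ t) (hup : t ≤ v ^ 6 / 64) :
    (w + v ^ 2 / 4) ^ 4 < v ^ 4 * t := by
  set q := √m with hq
  have hq1 : 1 < q := by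
    rw [hq]; exact Real.lt_sqrt_of_sq_lt (by linarith)
  have hqq : q ^ 2 = m := Real.sq_sqrt (by linarith)
  have hvq : v = q ^ 2 + 1 := by rw [hqq, hv]
  have hvpos : 0 < v := by linarith
  have ht' : (w * q) ^ 2 = t := by rw [mul_pow, hqq, ht]
  have hwq : 0 < w * q := by positivity
  have l1 : v ^ 2 / 4 ≤ w * q := by
    apply le_of_sq_le_sq _ hwq.le
    rw [ht']; calc (v ^ 2 / 4) ^ 2 = v ^ 4 / 16 := by ring
      _ ≤ t := hlow
  have l2 : w * q ≤ v ^ 3 / 8 := by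
    apply le_of_sq_le_sq _ (by positivity)
    rw [ht']; calc t ≤ v ^ 6 / 64 := hup
      _ = _ := by ring
  have key : (w + v ^ 2 / 4) ^ 2 < v ^ 2 * (w * q) := by
    -- divide by `w v ^ 2`
    have g1 : w / v ^ 2 ≤ v / (8 * q) := by
      rw [div_le_div_iff₀ (by positivity) (by positivity)]
      nlinarith
    have g2 : v ^ 2 / (16 * w) ≤ q / 4 := by
      rw [div_le_div_iff₀ (by positivity) (by positivity)]
      nlinarith
    have g3 : v / (8 * q) + 1 / 2 + q / 4 < q := by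
      rw [hvq]
      have : (q ^ 2 + 1) / (8 * q) = q / 8 + 1 / (8 * q) := by field_simp
      rw [this]
      have : 1 / (8 * q) < 1 / 8 := by
        rw [div_lt_div_iff₀ (by positivity) (by positivity)]; linarith
      linarith
    have g4 : (w + v ^ 2 / 4) ^ 2 = (w * v ^ 2) * (w / v ^ 2 + 1 / 2 + v ^ 2 / (16 * w)) := by
      field_simp; ring
    rw [g4]
    calc (w * v ^ 2) * (w / v ^ 2 + 1 / 2 + v ^ 2 / (16 * w)) < (w * v ^ 2) * q := by
          apply mul_lt_mul_of_pos_left _ (by positivity)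
          linarith
      _ = _ := by ring
  calc (w + v ^ 2 / 4) ^ 4 = ((w + v ^ 2 / 4) ^ 2) ^ 2 := by ring
    _ < (v ^ 2 * (w * q)) ^ 2 := by gcongr
    _ = v ^ 4 * t := by rw [mul_pow, ht']; ring

lemma sq_bound {v x y : ℕ} (h : x + y = v) (hx : v ≤ x ^ 2) (hy : v ≤ y ^ 2) :
    v ^ 3 ≤ 4 * (x * y) ^ 2 := by
  rcases le_total x y with hxy | hxy
  · have h1 : v ≤ 2 * y := by omega
    calc v ^ 3 = v * v ^ 2 := by ring
      _ ≤ x ^ 2 * (2 * y) ^ 2 := by gcongr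
      _ = _ := by ring
  · have h1 : v ≤ 2 * x := by omega
    calc v ^ 3 = v * v ^ 2 := by ring
      _ ≤ y ^ 2 * (2 * x) ^ 2 := by gcongr
      _ = _ := by ring

/-- There is no such data. -/
theorem contra (h : Core v m s1 s2 s3 x1 x2 x3 y1 y2 y3) : False := by
  have hw := h.wpos
  have hmp := h.mpos
  have hm2 := h.hm
  have hv := h.hv
  have hprod := h.prod
  have k0 := h.keyA1 h.noeq
  have k1 := h.swap1.keyA1 h.swap1.noeq
  have k2 := h.swap2.keyA1 h.swap2.noeq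
  have k3 := h.swap3.keyA1 h.swap3.noeq
  have k4 := h.swap2.swap3.keyA1 h.swap2.swap3.noeq
  have k5 := h.swap1.swap3.keyA1 h.swap1.swap3.noeq
  have k6 := h.swap1.swap2.keyA1 h.swap1.swap2.noeq
  have k7 := h.swap1.swap2.swap3.keyA1 h.swap1.swap2.swap3.noeq
  have kB := h.keyB
  have px1 := h.posx1
  have px2 := h.perm12.posx1
  have px3 := h.perm13.posx1
  have kB' := Nat.le_of_dvd (by positivity) kB
  have sb1 := sq_bound h.h1 h.q1 h.r1
  have sb2 := sq_bound h.h2 h.q2 h.r2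
  have sb3 := sq_bound h.h3 h.q3 h.r3
  generalize hw' : s1 * s2 * s3 * m = w at *
  generalize Nat.gcd (x1 * x2 * x3) w = g0 at *
  generalize Nat.gcd (y1 * x2 * x3) w = g1 at *
  generalize Nat.gcd (x1 * y2 * x3) w = g2 at *
  generalize Nat.gcd (x1 * x2 * y3) w = g3 at *
  generalize Nat.gcd (x1 * y2 * y3) w = g4 at *
  generalize Nat.gcd (y1 * x2 * y3) w = g5 at *
  generalize Nat.gcd (y1 * y2 * x3) w = g6 at *
  generalize Nat.gcd (y1 * y2 * y3) w = g7 at *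
  have hP : v ^ 8 * (g0 * g1 * g2 * g3 * g4 * g5 * g6 * g7) ≤
      (x1 * x2 * x3 + w) * (y1 * x2 * x3 + w) * (x1 * y2 * x3 + w) * (x1 * x2 * y3 + w) *
        (x1 * y2 * y3 + w) * (y1 * x2 * y3 + w) * (y1 * y2 * x3 + w) * (y1 * y2 * y3 + w) := by
    calc v ^ 8 * (g0 * g1 * g2 * g3 * g4 * g5 * g6 * g7)
        = (v * g0) * (v * g1) * (v * g2) * (v * g3) * (v * g4) * (v * g5) * (v * g6) *
          (v * g7) := by ring
      _ ≤ _ := by gcongr
  have hF : (x1 * x2 * x3 + w) * (y1 * x2 * x3 + w) * (x1 * y2 * x3 + w) * (x1 * x2 * y3 + w) *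
        (x1 * y2 * y3 + w) * (y1 * x2 * y3 + w) * (y1 * y2 * x3 + w) * (y1 * y2 * y3 + w) =
        w ^ 4 * ((w * v + x1 * x2 * x3 + y1 * y2 * y3) * (w * v + y1 * x2 * x3 + x1 * y2 * y3) *
          (w * v + x1 * y2 * x3 + y1 * x2 * y3) * (w * v + x1 * x2 * y3 + y1 * y2 * x3)) := by
    have f0 : (x1 * x2 * x3 + w) * (y1 * y2 * y3 + w) =
        w * (w * v + x1 * x2 * x3 + y1 * y2 * y3) := by
      calc (x1 * x2 * x3 + w) * (y1 * y2 * y3 + w)
          = (x1 * y1) * (x2 * y2) * (x3 * y3) + w * (x1 * x2 * x3 + y1 * y2 * y3 + w) := by ring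
        _ = _ := by rw [hprod, hv]; ring
    have f1 : (y1 * x2 * x3 + w) * (x1 * y2 * y3 + w) =
        w * (w * v + y1 * x2 * x3 + x1 * y2 * y3) := by
      calc (y1 * x2 * x3 + w) * (x1 * y2 * y3 + w)
          = (x1 * y1) * (x2 * y2) * (x3 * y3) + w * (y1 * x2 * x3 + x1 * y2 * y3 + w) := by ring
        _ = _ := by rw [hprod, hv]; ring
    have f2 : (x1 * y2 * x3 + w) * (y1 * x2 * y3 + w) =
        w * (w * v + x1 * y2 * x3 + y1 * x2 * y3) := by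
      calc (x1 * y2 * x3 + w) * (y1 * x2 * y3 + w)
          = (x1 * y1) * (x2 * y2) * (x3 * y3) + w * (x1 * y2 * x3 + y1 * x2 * y3 + w) := by ring
        _ = _ := by rw [hprod, hv]; ring
    have f3 : (x1 * x2 * y3 + w) * (y1 * y2 * x3 + w) =
        w * (w * v + x1 * x2 * y3 + y1 * y2 * x3) := by
      calc (x1 * x2 * y3 + w) * (y1 * y2 * x3 + w)
          = (x1 * y1) * (x2 * y2) * (x3 * y3) + w * (x1 * x2 * y3 + y1 * y2 * x3 + w) := by ring
        _ = _ := by rw [hprod, hv]; ring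
    calc _ = ((x1 * x2 * x3 + w) * (y1 * y2 * y3 + w)) *
          ((y1 * x2 * x3 + w) * (x1 * y2 * y3 + w)) * ((x1 * y2 * x3 + w) * (y1 * x2 * y3 + w)) *
          ((x1 * x2 * y3 + w) * (y1 * y2 * x3 + w)) := by ring
      _ = _ := by rw [f0, f1, f2, f3]; ring
  rw [hF] at hP
  have hF' : v ^ 8 * (w ^ 2 * m) ≤ (w * v + x1 * x2 * x3 + y1 * y2 * y3) *
      (w * v + y1 * x2 * x3 + x1 * y2 * y3) *
      (w * v + x1 * y2 * x3 + y1 * x2 * y3) * (w * v + x1 * x2 * y3 + y1 * y2 * x3) := by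
    apply Nat.le_of_mul_le_mul_left _ (by positivity : 0 < w ^ 4)
    refine le_trans ?_ hP
    calc w ^ 4 * (v ^ 8 * (w ^ 2 * m)) = v ^ 8 * (w ^ 6 * m) := by ring
      _ ≤ _ := by gcongr
  have hFr : (v : ℝ) ^ 8 * (w ^ 2 * m) ≤ (w * v + x1 * x2 * x3 + y1 * y2 * y3) *
      (w * v + y1 * x2 * x3 + x1 * y2 * y3) *
      (w * v + x1 * y2 * x3 + y1 * x2 * y3) * (w * v + x1 * x2 * y3 + y1 * y2 * x3) := by
    exact_mod_cast hF'
  have hvr1 : (x1 : ℝ) + y1 = v := by exact_mod_cast h.h1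
  have hvr2 : (x2 : ℝ) + y2 = v := by exact_mod_cast h.h2
  have hvr3 : (x3 : ℝ) + y3 = v := by exact_mod_cast h.h3
  have hvm : (v : ℝ) = m + 1 := by exact_mod_cast hv
  have hmr : (1 : ℝ) < m := by exact_mod_cast (by omega : 1 < m)
  have hwr : (0 : ℝ) < w := by exact_mod_cast hw
  have hvpos : (0 : ℝ) < v := by linarith
  have hAG := hFr.trans (amgm4 (by positivity) (by positivity) (by positivity) (by positivity))
  have hsum : (w * v + x1 * x2 * x3 + y1 * y2 * y3 + (w * v + y1 * x2 * x3 + x1 * y2 * y3) +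
      (w * v + x1 * y2 * x3 + y1 * x2 * y3) + (w * v + x1 * x2 * y3 + y1 * y2 * x3)) / 4 =
      (v : ℝ) * (w + v ^ 2 / 4) := by
    have : (v : ℝ) ^ 3 = (x1 + y1) * (x2 + y2) * (x3 + y3) := by
      rw [hvr1, hvr2, hvr3]; ring
    have h2 : (v : ℝ) * (w + v ^ 2 / 4) = v * w + v ^ 3 / 4 := by ring
    rw [h2, this]; ring
  rw [hsum] at hAG
  have hprodr : ((x1 : ℝ) * y1) * (x2 * y2) * (x3 * y3) = w ^ 2 * m := by exact_mod_cast hprod
  have u1 : (x1 : ℝ) * y1 ≤ v ^ 2 / 4 := by rw [← hvr1]; nlinarith [sq_nonneg ((x1 : ℝ) - y1)]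
  have u2 : (x2 : ℝ) * y2 ≤ v ^ 2 / 4 := by rw [← hvr2]; nlinarith [sq_nonneg ((x2 : ℝ) - y2)]
  have u3 : (x3 : ℝ) * y3 ≤ v ^ 2 / 4 := by rw [← hvr3]; nlinarith [sq_nonneg ((x3 : ℝ) - y3)]
  have hup : (w : ℝ) ^ 2 * m ≤ v ^ 6 / 64 := by
    rw [← hprodr]
    calc ((x1 : ℝ) * y1) * (x2 * y2) * (x3 * y3) ≤ (v ^ 2 / 4) * (v ^ 2 / 4) * (v ^ 2 / 4) := by
          gcongr
      _ = _ := by ring
  have sr1 : (v : ℝ) ^ 3 ≤ 4 * (x1 * y1) ^ 2 := by exact_mod_cast sb1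
  have sr2 : (v : ℝ) ^ 3 ≤ 4 * (x2 * y2) ^ 2 := by exact_mod_cast sb2
  have sr3 : (v : ℝ) ^ 3 ≤ 4 * (x3 * y3) ^ 2 := by exact_mod_cast sb3
  have hlow : (v : ℝ) ^ 4 / 16 ≤ w ^ 2 * m := by
    apply le_of_sq_le_sq _ (by positivity)
    rw [← hprodr]
    have h1v : (1 : ℝ) ≤ v := by linarith
    calc ((v : ℝ) ^ 4 / 16) ^ 2 = (v : ℝ) ^ 8 / 256 := by ring
      _ ≤ (v : ℝ) ^ 9 / 64 := by
        have : (v : ℝ) ^ 8 ≤ v ^ 9 := pow_le_pow_right₀ h1v (by norm_num)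
        have h9 : (0 : ℝ) ≤ (v : ℝ) ^ 9 := by positivity
        linarith
      _ = ((v : ℝ) ^ 3 / 4) * ((v : ℝ) ^ 3 / 4) * ((v : ℝ) ^ 3 / 4) := by ring
      _ ≤ ((x1 : ℝ) * y1) ^ 2 * ((x2 : ℝ) * y2) ^ 2 * ((x3 : ℝ) * y3) ^ 2 := by
        gcongr <;> linarith
      _ = ((x1 : ℝ) * y1 * (x2 * y2) * (x3 * y3)) ^ 2 := by ring
  have hfin := final_ineq hvm hmr hwr rfl hlow hup
  have : (v : ℝ) ^ 8 * (w ^ 2 * m) < v ^ 8 * (w ^ 2 * m) := by
    calc (v : ℝ) ^ 8 * (w ^ 2 * m) ≤ (v * (w + v ^ 2 / 4)) ^ 4 := hAG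
      _ = v ^ 4 * (w + v ^ 2 / 4) ^ 4 := by ring
      _ < v ^ 4 * (v ^ 4 * (w ^ 2 * m)) := by gcongr
      _ = _ := by ring
  exact lt_irrefl _ this

end Core

end Pool.Agent.MP_65f012_co
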