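import Mathlib

set_option autoImplicit false

namespace Pool.Agent.MP_65f012_co

/-- A system of linked symmetric designs `S₁, …, S_μ` (`μ > 2`) on sets of size `v`, with the
parameters `(v, k i j, lam i j)`. The sets are disjoint because they are distinct types. -/
structure LinkedSystem (μ v : ℕ) where
  /-- the number of sets is at least three -/
  two_lt : 2 < μ
  /-- the sets -/
  S : Fin μ → Type
  /-- the sets have size `v` -/
  finite : ∀ i, Finite (S i)
  card_S : ∀ i, Nat.card (S i) = v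
  /-- incidence between an element of `S i` and an element of `S j` -/
  Inc : ∀ i j, S i → S j → Prop
  inc_symm : ∀ i j (x : S i) (y : S j), Inc i j x y ↔ Inc j i y x
  /-- block sizes -/
  k : Fin μ → Fin μ → ℕ
  /-- pair counts -/
  lam : Fin μ → Fin μ → ℕ
  k_symm : ∀ i j, k i j = k j i
  lam_symm : ∀ i j, lam i j = lam j i
  nontrivial : ∀ i j, i ≠ j → 0 < lam i j ∧ lam i j < k i j ∧ k i j + 1 < v
  block : ∀ i j, i ≠ j → ∀ y : S j, Nat.card {x : S i // Inc i j x y} = k i j
  pairs : ∀ i j, i ≠ j → ∀ x x' : S i, x ≠ x' →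
    Nat.card {y : S j // Inc i j x y ∧ Inc i j x' y} = lam i j
  link : ∀ i j h, i ≠ j → j ≠ h → h ≠ i → ∃ σ τ : ℕ, ∀ (x : S i) (y : S j),
    (Inc i j x y → Nat.card {z : S h // Inc i h x z ∧ Inc j h y z} = σ) ∧
    (¬ Inc i j x y → Nat.card {z : S h // Inc i h x z ∧ Inc j h y z} = τ)

open Finset

lemma link_sq {X Y Z : Type} [Fintype Y] [Fintype Z] [DecidableEq Z]
    (P : X → Z → ℤ) (Q : Y → Z → ℤ) (R : X → Y → ℤ) (kP lP kQ lQ kR lR d τ : ℤ) (x x' : X)
    (hP1 : ∑ z, P x z * P x z = kP) (hP1' : ∑ z, P x' z * P x' z = kP)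
    (hP0 : ∑ z, P x z = kP) (hP0' : ∑ z, P x' z = kP) (hP2 : ∑ z, P x z * P x' z = lP)
    (hR1 : ∑ y, R x y * R x y = kR) (hR1' : ∑ y, R x' y * R x' y = kR)
    (hR2 : ∑ y, R x y * R x' y = lR)
    (hQ1 : ∀ z, ∑ y, Q y z * Q y z = kQ)
    (hQ2 : ∀ z z', z ≠ z' → ∑ y, Q y z * Q y z' = lQ)
    (hl : ∀ y, ∑ z, P x z * Q y z = τ + d * R x y)
    (hl' : ∀ y, ∑ z, P x' z * Q y z = τ + d * R x' y) :
    d ^ 2 * (kR - lR) = (kP - lP) * (kQ - lQ) := by
  set g : Z → ℤ := fun z => P x z - P x' z with hg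
  have g0 : ∑ z, g z = 0 := by
    simp only [hg, sum_sub_distrib, hP0, hP0', sub_self]
  have g2 : ∑ z, g z * g z = 2 * (kP - lP) := by
    have : ∀ z, g z * g z = P x z * P x z + P x' z * P x' z - 2 * (P x z * P x' z) := by
      intro z; simp only [hg]; ring
    simp only [this, sum_sub_distrib, sum_add_distrib, ← mul_sum, hP1, hP1', hP2]
    ring
  have hy : ∀ y, ∑ z, g z * Q y z = d * (R x y - R x' y) := by
    intro y
    have : ∀ z, g z * Q y z = P x z * Q y z - P x' z * Q y z := by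
      intro z; simp only [hg]; ring
    simp only [this, sum_sub_distrib, hl, hl']
    ring
  have s1 : ∑ y, (∑ z, g z * Q y z) * (∑ z, g z * Q y z) = d ^ 2 * (2 * (kR - lR)) := by
    have : ∀ y, (∑ z, g z * Q y z) * (∑ z, g z * Q y z) =
        d ^ 2 * (R x y * R x y + R x' y * R x' y - 2 * (R x y * R x' y)) := by
      intro y; rw [hy]; ring
    simp only [this, ← mul_sum, sum_sub_distrib, sum_add_distrib, hR1, hR1', hR2]
    ring
  have s2 : ∑ y, (∑ z, g z * Q y z) * (∑ z, g z * Q y z) = (kQ - lQ) * (2 * (kP - lP)) := by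
    have e1 : ∀ y, (∑ z, g z * Q y z) * (∑ z, g z * Q y z) =
        ∑ z, ∑ z', g z * g z' * (Q y z * Q y z') := by
      intro y
      rw [sum_mul_sum]
      refine sum_congr rfl fun z _ => sum_congr rfl fun z' _ => by ring
    simp only [e1]
    rw [sum_comm]
    have e2 : ∀ z, ∑ y, ∑ z', g z * g z' * (Q y z * Q y z') =
        ∑ z', g z * g z' * (lQ + (kQ - lQ) * (if z = z' then 1 else 0)) := by
      intro z
      rw [sum_comm]
      refine sum_congr rfl fun z' _ => ?_
      rw [← mul_sum]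
      congr 1
      split_ifs with h
      · subst h; rw [hQ1]; ring
      · rw [hQ2 z z' h]; ring
    simp only [e2]
    have e3 : ∀ z, ∑ z', g z * g z' * (lQ + (kQ - lQ) * (if z = z' then 1 else 0)) =
        (kQ - lQ) * (g z * g z) := by
      intro z
      have : ∀ z', g z * g z' * (lQ + (kQ - lQ) * (if z = z' then 1 else 0)) =
          g z * lQ * g z' + (if z = z' then (kQ - lQ) * (g z * g z') else 0) := by
        intro z'; split_ifs <;> ring
      simp only [this, sum_add_distrib, ← mul_sum, g0, sum_ite_eq, mem_univ, if_true]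
      ring
    simp only [e3, ← mul_sum, g2]
  have := s1.symm.trans s2
  linarith

namespace LinkedSystem

variable {μ v : ℕ} (L : LinkedSystem μ v)

noncomputable instance (i : Fin μ) : Fintype (L.S i) :=
  @Fintype.ofFinite _ (L.finite i)

open Classical in
/-- the incidence matrix -/
noncomputable def N (i j : Fin μ) (x : L.S i) (y : L.S j) : ℤ := if L.Inc i j x y then 1 else 0

lemma N_symm (i j : Fin μ) (x : L.S i) (y : L.S j) : L.N i j x y = L.N j i y x := by
  unfold N
  by_cases h : L.Inc i j x y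
  · simp [h, (L.inc_symm i j x y).1 h]
  · have h' : ¬ L.Inc j i y x := fun h2 => h ((L.inc_symm i j x y).2 h2)
    simp [h, h']

lemma N_sq (i j : Fin μ) (x : L.S i) (y : L.S j) : L.N i j x y * L.N i j x y = L.N i j x y := by
  unfold N
  split_ifs <;> norm_num

lemma card_univ (i : Fin μ) : ((Finset.univ : Finset (L.S i)).card : ℤ) = v := by
  rw [Finset.card_univ, ← Nat.card_eq_fintype_card, L.card_S]

lemma sum_col {i j : Fin μ} (hij : i ≠ j) (y : L.S j) : ∑ x, L.N i j x y = L.k i j := by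
  classical
  rw [← L.block i j hij y, Nat.card_eq_fintype_card, Fintype.card_subtype]
  simp only [N, Finset.sum_boole]

lemma sum_row {i j : Fin μ} (hij : i ≠ j) (x : L.S i) : ∑ y, L.N i j x y = L.k i j := by
  simp only [L.N_symm i j x]
  rw [L.sum_col hij.symm x, L.k_symm]

lemma sum_pair {i j : Fin μ} (hij : i ≠ j) {x x' : L.S i} (hx : x ≠ x') :
    ∑ y, L.N i j x y * L.N i j x' y = L.lam i j := by
  classical
  rw [← L.pairs i j hij x x' hx, Nat.card_eq_fintype_card, Fintype.card_subtype]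
  have : ∀ y, L.N i j x y * L.N i j x' y =
      if L.Inc i j x y ∧ L.Inc i j x' y then 1 else 0 := by
    intro y
    unfold N
    by_cases h1 : L.Inc i j x y <;> by_cases h2 : L.Inc i j x' y <;> simp [h1, h2]
  simp only [this, Finset.sum_boole]

lemma exists_link {i j h : Fin μ} (hij : i ≠ j) (hjh : j ≠ h) (hhi : h ≠ i) :
    ∃ d τ : ℤ, 0 ≤ τ ∧ ∀ (x : L.S i) (y : L.S j),
      ∑ z, L.N i h x z * L.N j h y z = τ + d * L.N i j x y := by
  classical
  obtain ⟨σ, τ, hl⟩ := L.link i j h hij hjh hhi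
  refine ⟨(σ : ℤ) - τ, τ, by positivity, fun x y => ?_⟩
  have e : ∑ z, L.N i h x z * L.N j h y z =
      (Nat.card {z : L.S h // L.Inc i h x z ∧ L.Inc j h y z} : ℤ) := by
    rw [Nat.card_eq_fintype_card, Fintype.card_subtype]
    have : ∀ z, L.N i h x z * L.N j h y z =
        if L.Inc i h x z ∧ L.Inc j h y z then 1 else 0 := by
      intro z
      unfold N
      by_cases h1 : L.Inc i h x z <;> by_cases h2 : L.Inc j h y z <;> simp [h1, h2]
    simp only [this, Finset.sum_boole]
  rw [e]
  by_cases hi : L.Inc i j x y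
  · rw [(hl x y).1 hi]; simp [N, hi]
  · rw [(hl x y).2 hi]; simp [N, hi]

include L in
lemma four_le {i j : Fin μ} (hij : i ≠ j) : 4 ≤ v := by
  have := L.nontrivial i j hij
  omega

lemma exists_pair (i : Fin μ) (hv : 1 < v) : ∃ x x' : L.S i, x ≠ x' := by
  have : 1 < Fintype.card (L.S i) := by rw [← Nat.card_eq_fintype_card, L.card_S]; exact hv
  obtain ⟨x, x', h⟩ := Fintype.exists_pair_of_one_lt_card this
  exact ⟨x, x', h⟩

/-- `k² = k + λ (v - 1)` -/
lemma k_sq {i j : Fin μ} (hij : i ≠ j) :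
    (L.k i j : ℤ) * L.k i j = L.k i j + L.lam i j * (v - 1) := by
  classical
  obtain ⟨x, -, -⟩ := L.exists_pair i (by have := L.four_le hij; omega)
  have e1 : ∑ x', ∑ y, L.N i j x y * L.N i j x' y = L.k i j * L.k i j := by
    rw [Finset.sum_comm]
    simp only [← Finset.mul_sum, L.sum_col hij]
    rw [← Finset.sum_mul, L.sum_row hij]
  have e2 : ∑ x', ∑ y, L.N i j x y * L.N i j x' y =
      ∑ x', (L.lam i j + if x = x' then ((L.k i j : ℤ) - L.lam i j) else 0) := by
    refine Finset.sum_congr rfl fun x' _ => ?_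
    split_ifs with h
    · subst h
      simp only [L.N_sq]
      rw [L.sum_row hij]; ring
    · rw [L.sum_pair hij h]; ring
  rw [← e1, e2, Finset.sum_add_distrib, Finset.sum_const, Finset.sum_ite_eq, nsmul_eq_mul,
    L.card_univ]
  simp
  ring

/-- The facts on three sets `i, j, h` with `d` the difference of the two linking numbers. -/
lemma triple {i j h : Fin μ} (hij : i ≠ j) (hjh : j ≠ h) (hhi : h ≠ i) :
    ∃ d : ℤ, (v : ℤ) ∣ L.k h i * L.k j h - d * L.k i j ∧
      d ^ 2 * (L.k i j - L.lam i j) = (L.k h i - L.lam h i) * (L.k j h - L.lam j h) := by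
  classical
  obtain ⟨d, τ, hτ, hl⟩ := L.exists_link hij hjh hhi
  obtain ⟨x, x', hx⟩ := L.exists_pair i (by have := L.four_le hij; omega)
  refine ⟨d, ?_, ?_⟩
  · refine ⟨τ, ?_⟩
    have e1 : ∑ y, ∑ z, L.N i h x z * L.N j h y z = L.k h i * L.k j h := by
      rw [Finset.sum_comm]
      simp only [← Finset.mul_sum, L.sum_col hjh]
      rw [← Finset.sum_mul, L.sum_row hhi.symm, L.k_symm i h]
    have e2 : ∑ y, ∑ z, L.N i h x z * L.N j h y z = v * τ + d * L.k i j := by
      simp only [hl, Finset.sum_add_distrib, Finset.sum_const, nsmul_eq_mul, L.card_univ,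
        ← Finset.mul_sum, L.sum_row hij]
    linarith
  · have key := link_sq (L.N i h) (L.N j h) (L.N i j) (L.k i h) (L.lam i h) (L.k j h)
      (L.lam j h) (L.k i j) (L.lam i j) d τ x x'
      (by simp only [L.N_sq, L.sum_row hhi.symm])
      (by simp only [L.N_sq, L.sum_row hhi.symm])
      (L.sum_row hhi.symm x) (L.sum_row hhi.symm x') (L.sum_pair hhi.symm hx)
      (by simp only [L.N_sq, L.sum_row hij])
      (by simp only [L.N_sq, L.sum_row hij])
      (L.sum_pair hij hx)
      (by intro z; simp only [L.N_sq, L.sum_col hjh])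
      (by
        intro z z' hz
        simp only [L.N_symm j h]
        rw [L.sum_pair hjh.symm hz, L.lam_symm])
      (hl x) (hl x')
    rw [key, L.k_symm i h, L.lam_symm i h]

end LinkedSystem

end Pool.Agent.MP_65f012_co
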