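import Pool.Agent.Lib.MP_65f012_co.Core

set_option autoImplicit false

namespace Pool.Agent.MP_65f012_co

/-- The numerical facts on three sets of a linked system. -/
structure Num (v K1 K2 K3 l1 l2 l3 : ℕ) (d1 d2 d3 : ℤ) : Prop where
  a1 : 0 < l1
  a2 : 0 < l2
  a3 : 0 < l3
  b1 : l1 < K1
  b2 : l2 < K2
  b3 : l3 < K3
  c1 : K1 + 1 < v
  c2 : K2 + 1 < v
  c3 : K3 + 1 < v
  e1 : (K1 : ℤ) * K1 = K1 + l1 * (v - 1)
  e2 : (K2 : ℤ) * K2 = K2 + l2 * (v - 1)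
  e3 : (K3 : ℤ) * K3 = K3 + l3 * (v - 1)
  f1 : (v : ℤ) ∣ K2 * K3 - d1 * K1
  f2 : (v : ℤ) ∣ K1 * K3 - d2 * K2
  f3 : (v : ℤ) ∣ K1 * K2 - d3 * K3
  g1 : d1 ^ 2 * (K1 - l1) = (K2 - l2) * (K3 - l3)
  g2 : d2 ^ 2 * (K2 - l2) = (K1 - l1) * (K3 - l3)
  g3 : d3 ^ 2 * (K3 - l3) = (K1 - l1) * (K2 - l2)

namespace Num

variable {v K1 K2 K3 l1 l2 l3 : ℕ} {d1 d2 d3 : ℤ}

lemma perm12 (h : Num v K1 K2 K3 l1 l2 l3 d1 d2 d3) : Num v K2 K1 K3 l2 l1 l3 d2 d1 d3 where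
  a1 := h.a2
  a2 := h.a1
  a3 := h.a3
  b1 := h.b2
  b2 := h.b1
  b3 := h.b3
  c1 := h.c2
  c2 := h.c1
  c3 := h.c3
  e1 := h.e2
  e2 := h.e1
  e3 := h.e3
  f1 := h.f2
  f2 := h.f1
  f3 := by rw [mul_comm (K2 : ℤ)]; exact h.f3
  g1 := h.g2
  g2 := h.g1
  g3 := by rw [h.g3]; ring

lemma perm13 (h : Num v K1 K2 K3 l1 l2 l3 d1 d2 d3) : Num v K3 K2 K1 l3 l2 l1 d3 d2 d1 where
  a1 := h.a3
  a2 := h.a2
  a3 := h.a1
  b1 := h.b3
  b2 := h.b2
  b3 := h.b1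
  c1 := h.c3
  c2 := h.c2
  c3 := h.c1
  e1 := h.e3
  e2 := h.e2
  e3 := h.e1
  f1 := by rw [mul_comm (K2 : ℤ)]; exact h.f3
  f2 := by rw [mul_comm (K3 : ℤ)]; exact h.f2
  f3 := by rw [mul_comm (K3 : ℤ)]; exact h.f1
  g1 := by rw [h.g3]; ring
  g2 := by rw [h.g2]; ring
  g3 := by rw [h.g1]; ring

lemma npos (h : Num v K1 K2 K3 l1 l2 l3 d1 d2 d3) : (0 : ℤ) < K1 - l1 := by
  have := h.b1
  omega

/-- `K₁ - λ₁ = |d₂| |d₃|` -/
lemma n1 (h : Num v K1 K2 K3 l1 l2 l3 d1 d2 d3) : (K1 : ℤ) - l1 = |d2| * |d3| := by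
  have p1 := h.npos
  have p2 := h.perm12.npos
  have p3 := h.perm13.npos
  have e : (d2 * d3) ^ 2 = ((K1 : ℤ) - l1) ^ 2 := by
    apply mul_right_cancel₀ (by positivity : ((K2 : ℤ) - l2) * (K3 - l3) ≠ 0)
    calc (d2 * d3) ^ 2 * (((K2 : ℤ) - l2) * (K3 - l3))
        = (d2 ^ 2 * (K2 - l2)) * (d3 ^ 2 * (K3 - l3)) := by ring
      _ = _ := by rw [h.g2, h.g3]; ring
  have e2 := (sq_eq_sq_iff_abs_eq_abs _ _).1 e
  rw [abs_mul, abs_of_pos p1] at e2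
  exact e2.symm

/-- `K₁ (v - K₁) = (K₁ - λ₁) (v - 1)` -/
lemma kk (h : Num v K1 K2 K3 l1 l2 l3 d1 d2 d3) :
    (K1 : ℤ) * (v - K1) = (K1 - l1) * (v - 1) := by
  have := h.e1
  linarith

lemma d1pos (h : Num v K1 K2 K3 l1 l2 l3 d1 d2 d3) : 0 < |d1| := by
  have h2 := h.perm12.n1
  have p2 := h.perm12.npos
  rw [h2] at p2
  rcases (abs_nonneg d1).lt_or_eq with h | h
  · exact h
  · rw [← h, zero_mul] at p2; exact absurd p2 (lt_irrefl _)

lemma q1 (h : Num v K1 K2 K3 l1 l2 l3 d1 d2 d3) : v ≤ K1 ^ 2 := by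
  have e := h.e1
  have p := h.npos
  have a : (1 : ℤ) ≤ l1 := by exact_mod_cast h.a1
  have : (v : ℤ) ≤ (K1 : ℤ) ^ 2 := by nlinarith
  exact_mod_cast this

lemma r1 (h : Num v K1 K2 K3 l1 l2 l3 d1 d2 d3) : v ≤ (v - K1) ^ 2 := by
  have e := h.e1
  have p := h.npos
  have c : (K1 : ℤ) + 1 < v := by exact_mod_cast h.c1
  have hK : K1 ≤ v := by have := h.c1; omega
  have h1 : ((v : ℤ) - 1) * (v - 2 * K1 + l1) = (v - K1) * (v - K1 - 1) := by linarith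
  have h2 : (0 : ℤ) < (v - K1) * (v - K1 - 1) := mul_pos (by linarith) (by linarith)
  have hv : (0 : ℤ) < (v : ℤ) - 1 := by have := h.c1; omega
  have h3 : (0 : ℤ) < v - 2 * K1 + l1 := by
    rw [← h1] at h2
    exact (mul_pos_iff_of_pos_left hv).1 h2
  have : (v : ℤ) ≤ ((v : ℤ) - K1) ^ 2 := by
    have h4 : ((v : ℤ) - K1) ^ 2 = v * (v - 2 * K1 + l1) + (K1 - l1) := by linarith
    rw [h4]
    have h5 : (v : ℤ) * 1 ≤ v * (v - 2 * K1 + l1) :=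
      mul_le_mul_of_nonneg_left (by omega) (by positivity)
    linarith
  have h6 : (((v - K1 : ℕ) : ℤ)) = (v : ℤ) - K1 := by push_cast [hK]; ring
  have h7 : ((v : ℕ) : ℤ) ≤ (((v - K1) ^ 2 : ℕ) : ℤ) := by push_cast [hK]; exact this
  exact_mod_cast h7

lemma prime_ndvd {ℓ : ℕ} (hℓ : ℓ.Prime) (hv : ℓ ∣ v) : ¬ (ℓ : ℤ) ∣ (v : ℤ) - 1 := by
  intro h
  have h1 : (ℓ : ℤ) ∣ (v : ℤ) := by exact_mod_cast hv
  have h2 : (ℓ : ℤ) ∣ 1 := by
    have := dvd_sub h1 h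
    simpa using this
  have h3 : ℓ ∣ 1 := by exact_mod_cast h2
  exact hℓ.one_lt.ne' (Nat.dvd_one.1 h3)

/-- A prime dividing `v` divides `K₁` iff it divides `K₁ - λ₁`. -/
lemma dvd_iff (h : Num v K1 K2 K3 l1 l2 l3 d1 d2 d3) {ℓ : ℕ} (hℓ : ℓ.Prime) (hv : ℓ ∣ v) :
    ℓ ∣ K1 ↔ (ℓ : ℤ) ∣ (K1 : ℤ) - l1 := by
  have hv' : (ℓ : ℤ) ∣ (v : ℤ) := by exact_mod_cast hv
  have hp : Prime (ℓ : ℤ) := Nat.prime_iff_prime_int.1 hℓ
  constructor
  · intro hK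
    have h1 : (ℓ : ℤ) ∣ (K1 : ℤ) := by exact_mod_cast hK
    have h2 : (ℓ : ℤ) ∣ (K1 - l1) * (v - 1) := by
      rw [← h.kk]; exact h1.mul_right _
    exact (hp.dvd_or_dvd h2).resolve_right (prime_ndvd hℓ hv)
  · intro hn
    have h1 : (ℓ : ℤ) ∣ (K1 : ℤ) * K1 := by
      have : (K1 : ℤ) * K1 = (K1 - l1) + l1 * v := by have := h.e1; linarith
      rw [this]
      exact dvd_add hn (hv'.mul_left _)
    have h2 : (ℓ : ℤ) ∣ (K1 : ℤ) := (hp.dvd_or_dvd h1).elim id id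
    exact_mod_cast h2

/-- A prime dividing `v` and `K₁` divides `K₂` or `K₃`. -/
lemma other (h : Num v K1 K2 K3 l1 l2 l3 d1 d2 d3) {ℓ : ℕ} (hℓ : ℓ.Prime) (hv : ℓ ∣ v)
    (hK : ℓ ∣ K1) : ℓ ∣ K2 ∨ ℓ ∣ K3 := by
  have hp : Prime (ℓ : ℤ) := Nat.prime_iff_prime_int.1 hℓ
  have h1 := (h.dvd_iff hℓ hv).1 hK
  rw [h.n1] at h1
  rcases hp.dvd_or_dvd h1 with h2 | h2
  · right
    rw [h.perm13.dvd_iff hℓ hv, h.perm13.n1]
    exact h2.mul_right _
  · left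
    rw [h.perm12.dvd_iff hℓ hv, h.perm12.n1]
    exact h2.mul_left _

/-- The size bound. -/
lemma bound (h : Num v K1 K2 K3 l1 l2 l3 d1 d2 d3) {ℓ : ℕ} (hℓ : ℓ.Prime) (hv : ℓ ∣ v)
    (hK : ℓ ∣ K1) : 4 * ℓ ^ 2 ≤ v := by
  obtain ⟨t, ht⟩ := hv
  obtain ⟨k, hk⟩ := hK
  have c := h.c1
  have hl2 := hℓ.two_le
  -- `ℓ² ∣ K₁ - λ₁`
  have h1 : ((ℓ : ℤ) ^ 2) ∣ (K1 - l1) * (v - 1) := by
    rw [← h.kk, hk, ht]
    refine ⟨(k : ℤ) * (t - k), ?_⟩
    push_cast; ring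
  have hcop : IsCoprime ((ℓ : ℤ) ^ 2) ((v : ℤ) - 1) := by
    apply IsCoprime.pow_left
    refine ⟨(t : ℤ), -1, ?_⟩
    rw [ht]; push_cast; ring
  have h2 : ((ℓ : ℤ) ^ 2) ∣ (K1 : ℤ) - l1 := hcop.dvd_of_dvd_mul_right h1
  have h3 := Int.le_of_dvd h.npos h2
  have h4 : 4 * ((K1 : ℤ) - l1) * (v - 1) ≤ v ^ 2 := by
    have := h.kk
    nlinarith [sq_nonneg ((v : ℤ) - 2 * K1)]
  have hv1 : (0 : ℤ) ≤ (v : ℤ) - 1 := by omega
  have h5 : 4 * (ℓ : ℤ) ^ 2 * (v - 1) ≤ v ^ 2 := by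
    nlinarith
  -- `4 (ℓ t - 1) ≤ t²`
  have hl0 : (0 : ℤ) < ℓ := by exact_mod_cast hℓ.pos
  have h6 : 4 * ((ℓ : ℤ) * t - 1) ≤ t ^ 2 := by
    have h7 : (ℓ : ℤ) ^ 2 * (4 * ((ℓ : ℤ) * t - 1)) ≤ (ℓ : ℤ) ^ 2 * t ^ 2 := by
      rw [ht] at h5; push_cast at h5
      nlinarith
    exact le_of_mul_le_mul_left h7 (by positivity)
  have h8 : 4 * ℓ ≤ t := by
    by_contra hcon
    have h9 : (t : ℤ) + 1 ≤ 4 * ℓ := by
      have : t + 1 ≤ 4 * ℓ := by omega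
      exact_mod_cast this
    have ht0 : (0 : ℤ) ≤ t := by positivity
    have h10 : (t : ℤ) ≤ 4 := by nlinarith
    have h11 : t ≤ 4 := by exact_mod_cast h10
    have hl2' : (2 : ℤ) ≤ ℓ := by exact_mod_cast hl2
    interval_cases t
    · omega
    · push_cast at h6; omega
    · push_cast at h6; omega
    · push_cast at h6; omega
    · push_cast at h6; omega
  calc 4 * ℓ ^ 2 = ℓ * (4 * ℓ) := by ring
    _ ≤ ℓ * t := by gcongr
    _ = v := ht.symm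

lemma toCore_aux (h : Num v K1 K2 K3 l1 l2 l3 d1 d2 d3) {m : ℕ} (hm : v = m + 1) :
    K1 * (v - K1) = d2.natAbs * d3.natAbs * m := by
  have hK : K1 ≤ v := by have := h.c1; omega
  have h1 := h.kk
  rw [h.n1] at h1
  have h2 : ((K1 * (v - K1) : ℕ) : ℤ) = ((d2.natAbs * d3.natAbs * m : ℕ) : ℤ) := by
    push_cast [hK]
    rw [h1, hm]; push_cast; ring
  exact_mod_cast h2

/-- The data with `v` coprime to the block sizes are impossible. -/
theorem not_coprime (h : Num v K1 K2 K3 l1 l2 l3 d1 d2 d3)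
    (hc : ∀ ℓ : ℕ, ℓ.Prime → ℓ ∣ v → ¬ (ℓ ∣ K1 ∧ ℓ ∣ K2) ∧ ¬ (ℓ ∣ K2 ∧ ℓ ∣ K3) ∧
      ¬ (ℓ ∣ K3 ∧ ℓ ∣ K1)) : False := by
  obtain ⟨m, hm⟩ : ∃ m, v = m + 1 := ⟨v - 1, by have := h.c1; omega⟩
  have cop1 : Nat.Coprime v K1 := by
    apply Nat.coprime_of_dvd
    intro ℓ hℓ hv hK
    have := hc ℓ hℓ hv
    rcases h.other hℓ hv hK with h2 | h2
    · exact this.1 ⟨hK, h2⟩
    · exact this.2.2 ⟨h2, hK⟩
  have cop2 : Nat.Coprime v K2 := by
    apply Nat.coprime_of_dvd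
    intro ℓ hℓ hv hK
    have := hc ℓ hℓ hv
    rcases h.perm12.other hℓ hv hK with h2 | h2
    · exact this.1 ⟨h2, hK⟩
    · exact this.2.1 ⟨hK, h2⟩
  have cop3 : Nat.Coprime v K3 := by
    apply Nat.coprime_of_dvd
    intro ℓ hℓ hv hK
    have := hc ℓ hℓ hv
    rcases h.perm13.other hℓ hv hK with h2 | h2
    · exact this.2.1 ⟨h2, hK⟩
    · exact this.2.2 ⟨hK, h2⟩
  have k1 : K1 ≤ v := by have := h.c1; omega
  have k2 : K2 ≤ v := by have := h.c2; omega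
  have k3 : K3 ≤ v := by have := h.c3; omega
  have core : Core v m d1.natAbs d2.natAbs d3.natAbs K1 K2 K3 (v - K1) (v - K2) (v - K3) :=
    { hv := hm
      hm := by have := h.c1; have := h.b1; have := h.a1; omega
      hs1 := Int.natAbs_pos.2 (abs_pos.1 h.d1pos)
      hs2 := Int.natAbs_pos.2 (abs_pos.1 h.perm12.d1pos)
      hs3 := Int.natAbs_pos.2 (abs_pos.1 h.perm13.d1pos)
      h1 := by omega
      h2 := by omega
      h3 := by omega
      p1 := h.toCore_aux hm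
      p2 := by rw [h.perm12.toCore_aux hm]
      p3 := by rw [h.perm13.toCore_aux hm]; ring
      c1 := cop1
      c2 := cop2
      c3 := cop3
      q1 := h.q1
      q2 := h.perm12.q1
      q3 := h.perm13.q1
      r1 := h.r1
      r2 := h.perm12.r1
      r3 := h.perm13.r1
      cong := by
        obtain ⟨τ, hτ⟩ := h.f1
        have e1 := h.e1
        have hn := h.n1
        have hv' : (v : ℤ) = m + 1 := by exact_mod_cast hm
        have hX : (K1 : ℤ) * K2 * K3 = d1 * (|d2| * |d3|) + v * (d1 * l1 + τ * K1) := by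
          rw [← hn]
          have e2 : (K2 : ℤ) * K3 = d1 * K1 + v * τ := by linarith
          have e3 : (K1 : ℤ) * K1 = (K1 - l1) + l1 * v := by linarith
          calc (K1 : ℤ) * K2 * K3 = K1 * (K2 * K3) := by ring
            _ = d1 * (K1 * K1) + v * (τ * K1) := by rw [e2]; ring
            _ = _ := by rw [e3]; ring
        rcases le_total 0 d1 with hd | hd
        · right
          refine ⟨d1 * l1 + τ * K1 + d1 * (|d2| * |d3|), ?_⟩
          push_cast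
          rw [hX, abs_of_nonneg hd, show (m : ℤ) = v - 1 by linarith]; ring
        · left
          refine ⟨d1 * l1 + τ * K1 + d1 * (|d2| * |d3|), ?_⟩
          push_cast
          rw [hX, abs_of_nonpos hd, show (m : ℤ) = v - 1 by linarith]; ring }
  exact core.contra

/-- The case of two equal (or complementary) block sizes. -/
lemma eq_core {v K1 K s : ℕ} {d : ℤ} (hK1 : 1 < K1) (hK1v : K1 + 1 < v)
    (h1 : (K1 : ℤ) * (v - K1) = d ^ 2 * (v - 1))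
    (h2 : (K : ℤ) * (v - K) = s * |d| * (v - 1)) (hs : 0 < s) (hd : d ≠ 0)
    (hdiv : (v : ℤ) ∣ K * (K1 - d)) (hcop : ∀ ℓ : ℕ, ℓ.Prime → ℓ ∣ v → ¬ ℓ ∣ K1) : False := by
  obtain ⟨c, k, hck, hvc, hKk⟩ := Nat.exists_coprime v K
  set a := Nat.gcd v K with ha
  have hv0 : 0 < v := by omega
  have ha0 : 0 < a := Nat.pos_of_ne_zero (by rintro h; rw [h] at hvc; omega)
  have hc0 : 0 < c := Nat.pos_of_ne_zero (by rintro h; rw [h] at hvc; omega)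
  have hvz : (v : ℤ) = c * a := by exact_mod_cast hvc
  have hKz : (K : ℤ) = k * a := by exact_mod_cast hKk
  have haz : (0 : ℤ) < a := by exact_mod_cast ha0
  have hcz : (0 : ℤ) < c := by exact_mod_cast hc0
  have hvz0 : (0 : ℤ) < v := by exact_mod_cast hv0
  have hK1z : (1 : ℤ) < K1 := by exact_mod_cast hK1
  have hK1vz : (K1 : ℤ) + 1 < v := by exact_mod_cast hK1v
  have hav : a ∣ v := Dvd.intro_left c hvc.symm
  -- `c ∣ K₁ - d`
  have hcd : (c : ℤ) ∣ K1 - d := by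
    obtain ⟨t, ht⟩ := hdiv
    have h3 : (c : ℤ) ∣ k * (K1 - d) := by
      refine ⟨t, ?_⟩
      apply mul_right_cancel₀ haz.ne'
      rw [hvz, hKz] at ht
      linarith
    exact (Nat.isCoprime_iff_coprime.2 hck).dvd_of_dvd_mul_left h3
  obtain ⟨j, hj⟩ := hcd
  have hK1j : (K1 : ℤ) = d + c * j := by linarith
  -- the identity
  have hid : (c : ℤ) * (j * (a - j)) = d * (a * d - a + 2 * j) := by
    apply mul_left_cancel₀ hcz.ne'
    have h3 := h1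
    rw [hK1j, hvz] at h3
    linarith
  -- coprimality
  have hcopd : Nat.Coprime d.natAbs c := by
    apply Nat.coprime_of_dvd
    intro ℓ hℓ hld hlc
    apply hcop ℓ hℓ (hlc.trans (Dvd.intro a hvc.symm))
    have e1 : (ℓ : ℤ) ∣ d := Int.natCast_dvd.2 hld
    have e2 : (ℓ : ℤ) ∣ (c : ℤ) := by exact_mod_cast hlc
    have e3 : (ℓ : ℤ) ∣ (K1 : ℤ) := by
      rw [hK1j]; exact dvd_add e1 (e2.mul_right _)
    exact_mod_cast e3
  have hcopz : IsCoprime d (c : ℤ) := by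
    rw [Int.isCoprime_iff_gcd_eq_one]
    simpa [Int.gcd] using hcopd
  have hdj : d ∣ j * (a - j) := by
    apply hcopz.dvd_of_dvd_mul_left
    rw [hid]; exact Dvd.intro _ rfl
  -- `0 < j < a`
  have hv1 : (0 : ℤ) < (v : ℤ) - 1 := by linarith
  have hj0 : 0 < j := by
    by_contra hcon
    have h3 : (c : ℤ) * j ≤ 0 := mul_nonpos_of_nonneg_of_nonpos hcz.le (by omega)
    have h4 : (K1 : ℤ) ≤ d := by linarith
    have h5 : (K1 : ℤ) ^ 2 ≤ d ^ 2 := by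
      apply pow_le_pow_left₀ (by linarith) h4
    have h6 : (K1 : ℤ) * (K1 * (v - 1)) ≤ K1 * (v - K1) := by
      rw [h1]
      calc (K1 : ℤ) * (K1 * (v - 1)) = K1 ^ 2 * (v - 1) := by ring
        _ ≤ d ^ 2 * (v - 1) := mul_le_mul_of_nonneg_right h5 hv1.le
    have h7 := le_of_mul_le_mul_left h6 (by linarith : (0 : ℤ) < K1)
    nlinarith
  have hja : j < a := by
    by_contra hcon
    have h3 : (c : ℤ) * a ≤ c * j := mul_le_mul_of_nonneg_left (by omega) hcz.le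
    have h4 : (v : ℤ) - K1 ≤ -d := by rw [hvz]; linarith
    have h5 : ((v : ℤ) - K1) ^ 2 ≤ (-d) ^ 2 := by
      apply pow_le_pow_left₀ (by linarith) h4
    have h6 : ((v : ℤ) - K1) * ((v - K1) * (v - 1)) ≤ (v - K1) * K1 := by
      rw [mul_comm ((v : ℤ) - K1) (K1 : ℤ), h1]
      calc ((v : ℤ) - K1) * ((v - K1) * (v - 1)) = (v - K1) ^ 2 * (v - 1) := by ring
        _ ≤ (-d) ^ 2 * (v - 1) := mul_le_mul_of_nonneg_right h5 hv1.le
        _ = d ^ 2 * (v - 1) := by ring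
    have h7 := le_of_mul_le_mul_left h6 (by linarith : (0 : ℤ) < (v : ℤ) - K1)
    nlinarith
  have hpos : 0 < j * (a - j) := mul_pos hj0 (by linarith)
  have hle : |d| ≤ j * (a - j) := Int.le_of_dvd hpos ((abs_dvd _ _).2 hdj)
  have ht0 : 0 < |d| := abs_pos.2 hd
  have hup : (c : ℤ) < 2 * a * |d| := by
    have h3 : (c : ℤ) * |d| ≤ |a * d - a + 2 * j| * |d| := by
      calc (c : ℤ) * |d| ≤ c * (j * (a - j)) := mul_le_mul_of_nonneg_left hle hcz.le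
        _ = d * (a * d - a + 2 * j) := hid
        _ ≤ |d * (a * d - a + 2 * j)| := le_abs_self _
        _ = _ := by rw [abs_mul, mul_comm]
    have h4 := le_of_mul_le_mul_right h3 ht0
    have h5 : |(a : ℤ) * d - a + 2 * j| < a * |d| + a := by
      have e1 : |(a : ℤ) * d| = a * |d| := by rw [abs_mul, abs_of_pos haz]
      have e2 : |2 * j - (a : ℤ)| < a := by
        rw [abs_lt]; constructor <;> linarith
      calc |(a : ℤ) * d - a + 2 * j| = |a * d + (2 * j - a)| := by ring_nf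
        _ ≤ |(a : ℤ) * d| + |2 * j - a| := abs_add_le _ _
        _ < _ := by rw [e1]; linarith
    have h6 : (a : ℤ) ≤ a * |d| := by nlinarith
    linarith
  -- `a² ∣ s`
  have hca : IsCoprime (a : ℤ) (|d| * (v - 1)) := by
    apply IsCoprime.mul_right
    · have h3 : Nat.Coprime a d.natAbs := by
        apply Nat.coprime_of_dvd
        intro ℓ hℓ hla hld
        have hlv : ℓ ∣ v := hla.trans hav
        apply hcop ℓ hℓ hlv
        have hp : Prime (ℓ : ℤ) := Nat.prime_iff_prime_int.1 hℓ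
        have e1 : (ℓ : ℤ) ∣ d := Int.natCast_dvd.2 hld
        have e2 : (ℓ : ℤ) ∣ (v : ℤ) := by exact_mod_cast hlv
        have e3 : (ℓ : ℤ) ∣ (K1 : ℤ) * (v - K1) := by
          rw [h1, pow_two, mul_assoc]; exact e1.mul_right _
        rcases hp.dvd_or_dvd e3 with e4 | e4
        · exact_mod_cast e4
        · have e5 : (ℓ : ℤ) ∣ (K1 : ℤ) := by
            have := dvd_sub e2 e4
            simpa using this
          exact_mod_cast e5
      have h4 := Nat.isCoprime_iff_coprime.2 h3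
      rwa [Int.natCast_natAbs] at h4
    · refine ⟨(c : ℤ), -1, ?_⟩
      rw [hvz]; ring
  have has : ((a : ℤ) ^ 2) ∣ (s : ℤ) := by
    apply (hca.pow_left (m := 2)).dvd_of_dvd_mul_right
    rw [← mul_assoc, ← h2, hKz, hvz]
    exact ⟨(k : ℤ) * (c - k), by ring⟩
  obtain ⟨t1, ht1⟩ := has
  have ht1pos : 0 < t1 := by
    have : (0 : ℤ) < a ^ 2 * t1 := by rw [← ht1]; exact_mod_cast hs
    exact (mul_pos_iff_of_pos_left (by positivity)).1 this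
  have hlow : 4 * |d| * ((v : ℤ) - 1) ≤ c ^ 2 := by
    have h3 : (k : ℤ) * (c - k) = t1 * (|d| * (v - 1)) := by
      apply mul_left_cancel₀ (by positivity : (a : ℤ) ^ 2 ≠ 0)
      have h4 := h2
      rw [hKz, ht1] at h4
      rw [hvz] at h4 ⊢
      linarith
    have h5 : |d| * ((v : ℤ) - 1) ≤ k * (c - k) := by
      rw [h3]
      have : (0 : ℤ) < |d| * (v - 1) := mul_pos ht0 hv1
      nlinarith
    nlinarith [sq_nonneg ((c : ℤ) - 2 * k)]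
  have h8 : (c : ℤ) ^ 2 < c * (2 * a * |d|) := by
    rw [pow_two]; exact mul_lt_mul_of_pos_left hup hcz
  have h9 : 4 * |d| * ((v : ℤ) - 1) < 2 * |d| * v := by
    calc 4 * |d| * ((v : ℤ) - 1) ≤ c ^ 2 := hlow
      _ < c * (2 * a * |d|) := h8
      _ = 2 * |d| * v := by rw [hvz]; ring
  nlinarith

theorem eq_case (h : Num v K1 K2 K3 l1 l2 l3 d1 d2 d3) (hK : K2 = K3 ∨ K2 + K3 = v) :
    ∃ ℓ : ℕ, ℓ.Prime ∧ ℓ ∣ v ∧ ℓ ∣ K1 ∧ ℓ ∣ K2 ∧ ℓ ∣ K3 := by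
  by_contra hcon
  have hv1 : (0 : ℤ) < (v : ℤ) - 1 := by have := h.c1; omega
  have hK' : (K3 : ℤ) = K2 ∨ (K3 : ℤ) = v - K2 := by
    rcases hK with hK | hK
    · left; exact_mod_cast hK.symm
    · right; have : (K2 : ℤ) + K3 = v := by exact_mod_cast hK
      linarith
  have hnK1 : ∀ ℓ : ℕ, ℓ.Prime → ℓ ∣ v → ¬ ℓ ∣ K1 := by
    intro ℓ hℓ hv hl
    apply hcon
    have hiff : ℓ ∣ K2 ↔ ℓ ∣ K3 := by
      rcases hK with hK | hK
      · rw [hK]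
      · constructor
        · intro h2; exact (Nat.dvd_add_right h2).1 (hK ▸ hv)
        · intro h3; exact (Nat.dvd_add_left h3).1 (hK ▸ hv)
    rcases h.other hℓ hv hl with h2 | h3
    · exact ⟨ℓ, hℓ, hv, hl, h2, hiff.1 h2⟩
    · exact ⟨ℓ, hℓ, hv, hl, hiff.2 h3, h3⟩
  have hn : (K2 : ℤ) - l2 = K3 - l3 := by
    apply mul_right_cancel₀ hv1.ne'
    rw [← h.perm12.kk, ← h.perm13.kk]
    rcases hK' with e | e <;> rw [e] <;> ring
  have habs : |d2| = |d3| := by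
    have e2 := h.perm12.n1
    have e3 := h.perm13.n1
    rw [hn, e3] at e2
    have hp := h.d1pos
    have : |d1| * |d2| = |d1| * |d3| := by linarith
    exact mul_left_cancel₀ hp.ne' this
  have hn1 : (K1 : ℤ) - l1 = d2 ^ 2 := by
    rw [h.n1, ← habs, ← sq, sq_abs]
  have hd2 : d2 ≠ 0 := abs_pos.1 h.perm12.d1pos
  obtain ⟨d, hd, hdiv⟩ : ∃ d : ℤ, (d = d2 ∨ d = -d2) ∧ (v : ℤ) ∣ K2 * (K1 - d) := by
    obtain ⟨τ, hτ⟩ := h.f2
    rcases hK' with e | e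
    · exact ⟨d2, Or.inl rfl, τ, by rw [e] at hτ; linarith⟩
    · exact ⟨-d2, Or.inr rfl, K1 - τ, by rw [e] at hτ; linarith⟩
  have hdabs : |d| = |d3| := by
    rw [← habs]; rcases hd with e | e <;> rw [e]; exact abs_neg d2
  have hdsq : d ^ 2 = d2 ^ 2 := by rcases hd with e | e <;> rw [e]; ring
  refine eq_core (v := v) (K1 := K1) (K := K2) (s := d1.natAbs) (d := d) ?_ h.c1 ?_ ?_ ?_ ?_
    hdiv hnK1
  · have := h.a1; have := h.b1; omega
  · rw [h.kk, hn1, hdsq]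
  · rw [h.perm12.kk, h.perm12.n1, hdabs, Int.natCast_natAbs]
  · exact Int.natAbs_pos.2 (abs_pos.1 h.d1pos)
  · rcases hd with e | e <;> rw [e]
    · exact hd2
    · exact neg_ne_zero.2 hd2

end Num

end Pool.Agent.MP_65f012_co
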