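import Pool.Agent.Lib.MP_65f012_co.Triple

set_option autoImplicit false

namespace Pool.Agent.MP_65f012_co

/-- No symmetric design on `q ^ t` points, `q` an odd prime, has a perfect square as its order. -/
lemma order_not_square {q t v K s : ℕ} (hq : q.Prime) (hq2 : q ≠ 2) (hv : v = q ^ t)
    (hK1 : 1 < K) (hKv : K + 1 < v) (h : K * (v - K) = s ^ 2 * (v - 1)) : False := by
  have hq0 := hq.pos
  have hK0 : K ≠ 0 := by omega
  have hv0 : v ≠ 0 := by omega
  obtain ⟨κ, k, hqk, hKk⟩ := Nat.exists_eq_pow_mul_and_not_dvd hK0 q hq.ne_one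
  have hk0 : 0 < k := Nat.pos_of_ne_zero (by rintro rfl; simp at hqk)
  have hκt : κ < t := by
    by_contra hcon
    have h1 : q ^ t ≤ q ^ κ := Nat.pow_le_pow_right hq0 (by omega)
    have h2 : q ^ κ ≤ q ^ κ * k := Nat.le_mul_of_pos_right _ hk0
    omega
  set c := q ^ (t - κ) with hc
  have hvc : v = q ^ κ * c := by rw [hv, hc, ← pow_add]; congr 1; omega
  have hkc : k < c := by
    have h1 : q ^ κ * k < q ^ κ * c := by rw [← hvc, ← hKk]; omega
    exact Nat.lt_of_mul_lt_mul_left h1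
  -- `q ^ κ ∣ s`
  have hcop : Nat.Coprime q (v - 1) := by
    rw [hq.coprime_iff_not_dvd]
    intro hd
    have hqv : q ∣ v := by rw [hv]; exact dvd_pow_self q (by omega)
    have h1 : q ∣ v - (v - 1) := Nat.dvd_sub hqv hd
    have h2 : v - (v - 1) = 1 := by omega
    rw [h2] at h1
    exact hq.one_lt.ne' (Nat.dvd_one.1 h1)
  have hvK : v - K = q ^ κ * (c - k) := by rw [hvc, hKk, Nat.mul_sub]
  have hsd : (q ^ κ) ^ 2 ∣ s ^ 2 := by
    apply Nat.Coprime.dvd_of_dvd_mul_right ((hcop.pow_left κ).pow_left 2)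
    rw [← h, hvK, hKk]
    exact ⟨k * (c - k), by ring⟩
  obtain ⟨s', hs'⟩ := (Nat.pow_dvd_pow_iff (by norm_num)).1 hsd
  have hmain : k * (c - k) = s' ^ 2 * (v - 1) := by
    apply Nat.eq_of_mul_eq_mul_left (by positivity : 0 < (q ^ κ) ^ 2)
    calc (q ^ κ) ^ 2 * (k * (c - k)) = (q ^ κ * k) * (q ^ κ * (c - k)) := by ring
      _ = K * (v - K) := by rw [hvK, ← hKk]
      _ = (q ^ κ) ^ 2 * (s' ^ 2 * (v - 1)) := by rw [h, hs']; ring
  have hmz : (k : ℤ) * (c - k) = s' ^ 2 * (v - 1) := by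
    have h1 : ((k * (c - k) : ℕ) : ℤ) = ((s' ^ 2 * (v - 1) : ℕ) : ℤ) := by rw [hmain]
    have h2 : ((c - k : ℕ) : ℤ) = c - k := by push_cast [hkc.le]; ring
    have h3 : ((v - 1 : ℕ) : ℤ) = v - 1 := by
      have : 1 ≤ v := by omega
      push_cast [this]; ring
    rw [Nat.cast_mul, Nat.cast_mul, h2, h3] at h1
    push_cast at h1
    exact h1
  have hs0 : 0 < s' := by
    rcases Nat.eq_zero_or_pos s' with h0 | h0
    · exfalso
      rw [h0] at hmain
      have : 0 < k * (c - k) := Nat.mul_pos hk0 (by omega)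
      omega
    · exact h0
  have hc0 : (0 : ℤ) < c := by have : 0 < c := by omega
                               exact_mod_cast this
  have hvcz : (v : ℤ) = q ^ κ * c := by exact_mod_cast hvc
  have hqκ : (1 : ℤ) ≤ (q : ℤ) ^ κ := by
    have : 1 ≤ q ^ κ := Nat.one_le_pow _ _ hq0
    exact_mod_cast this
  have hk0z : (0 : ℤ) < k := by exact_mod_cast hk0
  have hs0z : (0 : ℤ) < s' := by exact_mod_cast hs0
  have hkcz : (k : ℤ) < c := by exact_mod_cast hkc
  have hKz : (1 : ℤ) < K := by exact_mod_cast hK1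
  have hKvz : (K : ℤ) + 1 < v := by exact_mod_cast hKv
  have hKkz : (K : ℤ) = q ^ κ * k := by exact_mod_cast hKk
  -- `s' < c`
  have hsc : (s' : ℤ) < c := by
    by_contra hcon
    have h1 : (c : ℤ) ≤ s' := by omega
    have h2 : (c : ℤ) ^ 2 ≤ s' ^ 2 := by gcongr
    have h3 : (1 : ℤ) ≤ v - 1 := by linarith
    have h4 : (c : ℤ) ^ 2 * 1 ≤ s' ^ 2 * (v - 1) := by gcongr
    nlinarith
  have hdiv : (c : ℤ) ∣ (k - s') * (k + s') := by
    refine ⟨k - q ^ κ * s' ^ 2, ?_⟩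
    rw [hvcz] at hmz
    linarith
  have hp : Prime (q : ℤ) := Nat.prime_iff_prime_int.1 hq
  have hnk : ¬ (q : ℤ) ∣ (k : ℤ) := by intro hd; exact hqk (by exact_mod_cast hd)
  have hn2 : ¬ (q : ℤ) ∣ 2 := by
    intro hd
    have : q ∣ 2 := by exact_mod_cast hd
    rcases (Nat.dvd_prime Nat.prime_two).1 this with h1 | h1
    · exact hq.ne_one h1
    · exact hq2 h1
  have hcq : (c : ℤ) = (q : ℤ) ^ (t - κ) := by rw [hc]; push_cast; ring
  by_cases hd : (q : ℤ) ∣ k + s'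
  · have hnd : ¬ (q : ℤ) ∣ k - s' := by
      intro hd'
      have h1 : (q : ℤ) ∣ 2 * k := by
        have e : (2 : ℤ) * k = (k + s') + (k - s') := by ring
        rw [e]; exact dvd_add hd hd'
      rcases hp.dvd_or_dvd h1 with h2 | h2
      · exact hn2 h2
      · exact hnk h2
    have hcop2 : IsCoprime (c : ℤ) (k - s') := by
      rw [hcq]
      exact ((Prime.coprime_iff_not_dvd hp).2 hnd).pow_left
    have h1 := hcop2.dvd_of_dvd_mul_left hdiv
    -- `k + s' = c`
    obtain ⟨z, hz⟩ := h1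
    have hz1 : z = 1 := by
      have e1 : (0 : ℤ) < c * z := by rw [← hz]; linarith
      have e2 : (0 : ℤ) < z := (mul_pos_iff_of_pos_left hc0).1 e1
      have e3 : c * z < c * 2 := by rw [← hz]; linarith
      have e4 : z < 2 := lt_of_mul_lt_mul_left e3 hc0.le
      omega
    rw [hz1, mul_one] at hz
    have e1 : (k : ℤ) = s' * (v - 1) := by
      apply mul_left_cancel₀ hs0z.ne'
      have : (c : ℤ) - k = s' := by linarith
      rw [this] at hmz
      linarith
    have e2 : (c : ℤ) = s' * v := by linarith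
    have e3 : (v : ℤ) ≤ c := by rw [e2]; nlinarith
    have e4 : (c : ℤ) ≤ v := by rw [hvcz]; nlinarith
    have e5 : (s' : ℤ) = 1 := by
      have : (s' : ℤ) * v = 1 * v := by linarith
      exact mul_right_cancel₀ (by linarith : (v : ℤ) ≠ 0) this
    have e6 : (q : ℤ) ^ κ = 1 := by
      have : (q : ℤ) ^ κ * c = 1 * c := by linarith
      exact mul_right_cancel₀ hc0.ne' this
    rw [e6, e1, e5] at hKkz
    linarith
  · have hcop2 : IsCoprime (c : ℤ) (k + s') := by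
      rw [hcq]
      exact ((Prime.coprime_iff_not_dvd hp).2 hd).pow_left
    have h1 := hcop2.dvd_of_dvd_mul_right hdiv
    obtain ⟨z, hz⟩ := h1
    have hz0 : z = 0 := by
      have e3 : c * z < c * 1 := by rw [← hz]; linarith
      have e4 : z < 1 := lt_of_mul_lt_mul_left e3 hc0.le
      have e5 : c * (-1) < c * z := by rw [← hz]; linarith
      have e6 : -1 < z := lt_of_mul_lt_mul_left e5 hc0.le
      omega
    rw [hz0, mul_zero] at hz
    have hks : (k : ℤ) = s' := by linarith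
    have e1 : (c : ℤ) - k = k * (v - 1) := by
      apply mul_left_cancel₀ hk0z.ne'
      rw [hmz, hks]; ring
    have e2 : (c : ℤ) = k * v := by linarith
    have e3 : (v : ℤ) ≤ c := by rw [e2]; nlinarith
    have e4 : (c : ℤ) ≤ v := by rw [hvcz]; nlinarith
    have e5 : (k : ℤ) = 1 := by
      have : (k : ℤ) * v = 1 * v := by linarith
      exact mul_right_cancel₀ (by linarith : (v : ℤ) ≠ 0) this
    have e6 : (q : ℤ) ^ κ = 1 := by
      have : (q : ℤ) ^ κ * c = 1 * c := by linarith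
      exact mul_right_cancel₀ hc0.ne' this
    rw [e6, e5] at hKkz
    linarith

/-- The numbers `x` with `m ∣ x (x - 1)` between `1` and `m`. -/
def idem (m : ℕ) : Finset ℕ := (Finset.Icc 1 m).filter fun x => m ∣ x * (x - 1)

lemma gcd_mul_gcd {m x : ℕ} (hx : 1 ≤ x) (h : m ∣ x * (x - 1)) :
    Nat.gcd m x * Nat.gcd m (x - 1) = m := by
  have hc : Nat.Coprime x (x - 1) := by
    obtain ⟨y, rfl⟩ : ∃ y, x = y + 1 := ⟨x - 1, by omega⟩
    simp
  rw [← Nat.Coprime.gcd_mul m hc]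
  exact Nat.gcd_eq_left h

lemma gcd_dvd_gcd {m x y : ℕ} (hm : 0 < m) (hy : 1 ≤ y) (h : m ∣ y * (y - 1))
    (hxy : ∀ p : ℕ, p.Prime → p ∣ m → p ∣ x → p ∣ y) : Nat.gcd m x ∣ Nat.gcd m y := by
  have h1 : Nat.gcd m x ∣ Nat.gcd m y * Nat.gcd m (y - 1) := by
    rw [gcd_mul_gcd hy h]; exact Nat.gcd_dvd_left m x
  apply Nat.Coprime.dvd_of_dvd_mul_right _ h1
  apply Nat.coprime_of_dvd
  intro p hp hpx hpy
  have e1 : p ∣ m := hpx.trans (Nat.gcd_dvd_left m x)
  have e2 : p ∣ y := hxy p hp e1 (hpx.trans (Nat.gcd_dvd_right m x))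
  have e3 : p ∣ y - 1 := hpy.trans (Nat.gcd_dvd_right m (y - 1))
  have e4 : p ∣ y - (y - 1) := Nat.dvd_sub e2 e3
  have e5 : y - (y - 1) = 1 := by omega
  rw [e5] at e4
  exact hp.one_lt.ne' (Nat.dvd_one.1 e4)

lemma idem_eq {m x y : ℕ} (hm : 0 < m) (hx : 1 ≤ x) (hxm : x ≤ m) (hx2 : m ∣ x * (x - 1))
    (hy : 1 ≤ y) (hym : y ≤ m) (hy2 : m ∣ y * (y - 1))
    (hxy : ∀ p : ℕ, p.Prime → p ∣ m → (p ∣ x ↔ p ∣ y)) : x = y := by
  have hg : Nat.gcd m x = Nat.gcd m y :=
    Nat.dvd_antisymm (gcd_dvd_gcd hm hy hy2 fun p hp h1 => (hxy p hp h1).1)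
      (gcd_dvd_gcd hm hx hx2 fun p hp h1 => (hxy p hp h1).2)
  have hg0 : 0 < Nat.gcd m x := Nat.gcd_pos_of_pos_left _ hm
  have hg' : Nat.gcd m (x - 1) = Nat.gcd m (y - 1) := by
    apply Nat.eq_of_mul_eq_mul_left hg0
    rw [gcd_mul_gcd hx hx2, hg, gcd_mul_gcd hy hy2]
  have hcop : IsCoprime ((Nat.gcd m x : ℕ) : ℤ) ((Nat.gcd m (x - 1) : ℕ) : ℤ) := by
    rw [Nat.isCoprime_iff_coprime]
    have hc : Nat.Coprime x (x - 1) := by
      obtain ⟨y, rfl⟩ : ∃ y, x = y + 1 := ⟨x - 1, by omega⟩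
      simp
    exact Nat.Coprime.coprime_dvd_left (Nat.gcd_dvd_right m x)
      (Nat.Coprime.coprime_dvd_right (Nat.gcd_dvd_right m (x - 1)) hc)
  have hd : (m : ℤ) ∣ (x : ℤ) - y := by
    have e1 : (m : ℤ) = ((Nat.gcd m x : ℕ) : ℤ) * ((Nat.gcd m (x - 1) : ℕ) : ℤ) := by
      exact_mod_cast (gcd_mul_gcd hx hx2).symm
    rw [e1]
    apply hcop.mul_dvd
    · apply dvd_sub
      · exact_mod_cast Nat.gcd_dvd_right m x
      · rw [hg]; exact_mod_cast Nat.gcd_dvd_right m y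
    · have e2 : ((Nat.gcd m (x - 1) : ℕ) : ℤ) ∣ ((x - 1 : ℕ) : ℤ) := by
        exact_mod_cast Nat.gcd_dvd_right m (x - 1)
      have e3 : ((Nat.gcd m (x - 1) : ℕ) : ℤ) ∣ ((y - 1 : ℕ) : ℤ) := by
        rw [hg']; exact_mod_cast Nat.gcd_dvd_right m (y - 1)
      have e4 := dvd_sub e2 e3
      have e5 : ((x - 1 : ℕ) : ℤ) - ((y - 1 : ℕ) : ℤ) = (x : ℤ) - y := by
        push_cast [hx, hy]; ring
      rwa [e5] at e4
  have hlt : |(x : ℤ) - y| < m := by rw [abs_lt]; constructor <;> omega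
  have := Int.eq_zero_of_abs_lt_dvd hd hlt
  omega

lemma card_idem {m : ℕ} (hm : 0 < m) : (idem m).card ≤ 2 ^ m.primeFactors.card := by
  classical
  rw [← Finset.card_powerset]
  apply Finset.card_le_card_of_injOn (fun x => m.primeFactors.filter fun p => p ∣ x)
  · intro x _
    simp only [Finset.coe_powerset, Set.mem_preimage, Set.mem_powerset_iff, Finset.coe_subset]
    exact Finset.filter_subset _ _
  · intro x hx y hy hxy
    simp only [idem, Finset.coe_filter, Finset.mem_Icc, Set.mem_setOf_eq] at hx hy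
    apply idem_eq hm hx.1.1 hx.1.2 hx.2 hy.1.1 hy.1.2 hy.2
    intro p hp hpm
    have h1 : p ∈ m.primeFactors.filter (fun p => p ∣ x) ↔
        p ∈ m.primeFactors.filter (fun p => p ∣ y) := by
      simp only at hxy
      rw [hxy]
    simp only [Finset.mem_filter, Nat.mem_primeFactors] at h1
    constructor
    · intro h2; exact (h1.1 ⟨⟨hp, hpm, hm.ne'⟩, h2⟩).2
    · intro h2; exact (h1.2 ⟨⟨hp, hpm, hm.ne'⟩, h2⟩).2

namespace Num

variable {v K1 K2 K3 l1 l2 l3 : ℕ} {d1 d2 d3 : ℤ}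

/-- If two block sizes are equal or complementary, then the third order is a square. -/
lemma sq_of_eq (h : Num v K1 K2 K3 l1 l2 l3 d1 d2 d3) (hK : K2 = K3 ∨ K2 + K3 = v) :
    (K1 : ℤ) - l1 = d2 ^ 2 := by
  have hv1 : (0 : ℤ) < (v : ℤ) - 1 := by have := h.c1; omega
  have hK' : (K3 : ℤ) = K2 ∨ (K3 : ℤ) = v - K2 := by
    rcases hK with hK | hK
    · left; exact_mod_cast hK.symm
    · right; have : (K2 : ℤ) + K3 = v := by exact_mod_cast hK
      linarith
  have hn : (K2 : ℤ) - l2 = K3 - l3 := by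
    apply mul_right_cancel₀ hv1.ne'
    rw [← h.perm12.kk, ← h.perm13.kk]
    rcases hK' with e | e
    · rw [e]
    · rw [e]; ring
  have habs : |d2| = |d3| := by
    have e2 := h.perm12.n1
    have e3 := h.perm13.n1
    rw [hn, e3] at e2
    have hp := h.d1pos
    have : |d1| * |d2| = |d1| * |d3| := by linarith
    exact mul_left_cancel₀ hp.ne' this
  rw [h.n1, ← habs, ← sq, sq_abs]

end Num

end Pool.Agent.MP_65f012_co
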