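import Pool.Agent.Lib.MP_65f012_co.Defs
import Pool.Agent.Lib.MP_65f012_co.Num

set_option autoImplicit false

namespace Pool.Agent.MP_65f012_co

lemma num {μ v : ℕ} (L : LinkedSystem μ v) {i j h : Fin μ} (hij : i ≠ j) (hjh : j ≠ h)
    (hhi : h ≠ i) : ∃ d1 d2 d3 : ℤ,
      Num v (L.k j h) (L.k h i) (L.k i j) (L.lam j h) (L.lam h i) (L.lam i j) d1 d2 d3 := by
  obtain ⟨d3, f3, g3⟩ := L.triple hij hjh hhi
  obtain ⟨d1, f1, g1⟩ := L.triple hjh hhi hij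
  obtain ⟨d2, f2, g2⟩ := L.triple hhi hij hjh
  obtain ⟨a3, b3, c3⟩ := L.nontrivial i j hij
  obtain ⟨a1, b1, c1⟩ := L.nontrivial j h hjh
  obtain ⟨a2, b2, c2⟩ := L.nontrivial h i hhi
  exact ⟨d1, d2, d3,
    { a1 := a1, a2 := a2, a3 := a3, b1 := b1, b2 := b2, b3 := b3, c1 := c1, c2 := c2, c3 := c3
      e1 := L.k_sq hjh
      e2 := L.k_sq hhi
      e3 := L.k_sq hij
      f1 := by rw [mul_comm]; exact f1
      f2 := f2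
      f3 := by rw [mul_comm]; exact f3
      g1 := by rw [g1]; ring
      g2 := by rw [g2]
      g3 := by rw [g3]; ring }⟩

/-- For any three sets of a linked system, some prime `ℓ ∣ v` with `4 ℓ² ≤ v` divides at least two
of the three block sizes. -/
lemma two_of_three {μ v : ℕ} (L : LinkedSystem μ v) {i j h : Fin μ} (hij : i ≠ j) (hjh : j ≠ h)
    (hhi : h ≠ i) : ∃ ℓ : ℕ, ℓ.Prime ∧ ℓ ∣ v ∧ 4 * ℓ ^ 2 ≤ v ∧
      ((ℓ ∣ L.k i j ∧ ℓ ∣ L.k j h) ∨ (ℓ ∣ L.k j h ∧ ℓ ∣ L.k h i) ∨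
        (ℓ ∣ L.k h i ∧ ℓ ∣ L.k i j)) := by
  obtain ⟨d1, d2, d3, H⟩ := num L hij hjh hhi
  by_contra hcon
  apply H.not_coprime
  intro ℓ hℓ hv
  refine ⟨fun hK => hcon ?_, fun hK => hcon ?_, fun hK => hcon ?_⟩
  · exact ⟨ℓ, hℓ, hv, H.bound hℓ hv hK.1, Or.inr (Or.inl hK)⟩
  · exact ⟨ℓ, hℓ, hv, H.perm12.bound hℓ hv hK.1, Or.inr (Or.inr hK)⟩
  · exact ⟨ℓ, hℓ, hv, H.bound hℓ hv hK.2, Or.inl hK⟩

end Pool.Agent.MP_65f012_co
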